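import Pool.Agent.Lib.MP_b07157_agQ.QDefs
import Mathlib.LinearAlgebra.Eigenspace.Triangularizable

/-!
# Homogeneous polynomials killed by a linear vector field of non-zero divergence: weights
-/

noncomputable section

namespace MPb07157

open MvPolynomial

namespace W

variable {n : ℕ}

namespace NX

/-! ### Generalized eigenspaces of a derivation -/

/-- The product of generalized eigenvectors of a derivation. -/
theorem mul_mem_gen {A : Type*} [CommRing A] [Algebra ℂ A] (D : Derivation ℂ A A) {μ ν : ℂ}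
    {p q : A} (hp : p ∈ Module.End.maxGenEigenspace (D : A →ₗ[ℂ] A) μ)
    (hq : q ∈ Module.End.maxGenEigenspace (D : A →ₗ[ℂ] A) ν) :
    p * q ∈ Module.End.maxGenEigenspace (D : A →ₗ[ℂ] A) (μ + ν) := by
  rw [Module.End.mem_maxGenEigenspace] at hp hq ⊢
  obtain ⟨k, hk⟩ := hp
  obtain ⟨l, hl⟩ := hq
  refine ⟨k + l, ?_⟩
  obtain ⟨N, hN⟩ : ∃ N, N = k + l := ⟨_, rfl⟩
  rw [← hN]
  induction N generalizing k l p q with
  | zero =>
    have h1 : k = 0 := by omega
    rw [h1, pow_zero] at hk
    change p = 0 at hk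
    rw [hk, zero_mul, map_zero]
  | succ N ih =>
    rcases k with _ | k
    · rw [pow_zero] at hk
      change p = 0 at hk
      rw [hk, zero_mul, map_zero]
    rcases l with _ | l
    · rw [pow_zero] at hl
      change q = 0 at hl
      rw [hl, mul_zero, map_zero]
    have h1 : ((D : A →ₗ[ℂ] A) - (μ + ν) • (1 : Module.End ℂ A)) (p * q) =
        (((D : A →ₗ[ℂ] A) - μ • (1 : Module.End ℂ A)) p) * q +
          p * (((D : A →ₗ[ℂ] A) - ν • (1 : Module.End ℂ A)) q) := by
      simp only [LinearMap.sub_apply, LinearMap.smul_apply, Module.End.one_apply,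
        Derivation.coeFn_coe, Derivation.leibniz, smul_eq_mul]
      rw [add_smul, sub_mul, mul_sub, smul_mul_assoc, mul_smul_comm]
      ring
    rw [pow_succ, Module.End.mul_apply, h1, map_add, ih k ?_ (l + 1) hl (by omega),
      ih (k + 1) hk l ?_ (by omega), add_zero]
    · rw [pow_succ, Module.End.mul_apply] at hl
      exact hl
    · rw [pow_succ, Module.End.mul_apply] at hk
      exact hk

theorem one_mem_gen {A : Type*} [CommRing A] [Algebra ℂ A] (D : Derivation ℂ A A) :
    (1 : A) ∈ Module.End.maxGenEigenspace (D : A →ₗ[ℂ] A) 0 := by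
  rw [Module.End.mem_maxGenEigenspace]
  refine ⟨1, ?_⟩
  rw [pow_one, LinearMap.sub_apply, LinearMap.smul_apply, zero_smul, sub_zero,
    Derivation.coeFn_coe, Derivation.map_one_eq_zero]

theorem pow_mem_gen {A : Type*} [CommRing A] [Algebra ℂ A] (D : Derivation ℂ A A) {μ : ℂ}
    {p : A} (hp : p ∈ Module.End.maxGenEigenspace (D : A →ₗ[ℂ] A) μ) (k : ℕ) :
    p ^ k ∈ Module.End.maxGenEigenspace (D : A →ₗ[ℂ] A) (μ * k) := by
  induction k with
  | zero =>
    rw [pow_zero, Nat.cast_zero, mul_zero]
    exact one_mem_gen D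
  | succ k ih =>
    rw [pow_succ, Nat.cast_succ, mul_add, mul_one]
    exact mul_mem_gen D ih hp

theorem prod_mem_gen {A : Type*} [CommRing A] [Algebra ℂ A] (D : Derivation ℂ A A)
    {ι : Type*} (s : Finset ι) {μ : ι → ℂ} {p : ι → A}
    (hp : ∀ i ∈ s, p i ∈ Module.End.maxGenEigenspace (D : A →ₗ[ℂ] A) (μ i)) :
    ∏ i ∈ s, p i ∈ Module.End.maxGenEigenspace (D : A →ₗ[ℂ] A) (∑ i ∈ s, μ i) := by
  classical
  induction s using Finset.induction_on with
  | empty =>
    rw [Finset.prod_empty, Finset.sum_empty]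
    exact one_mem_gen D
  | insert a s ha ih =>
    rw [Finset.prod_insert ha, Finset.sum_insert ha]
    exact mul_mem_gen D (hp a (Finset.mem_insert_self a s))
      (ih fun i hi => hp i (Finset.mem_insert_of_mem hi))

/-! ### Linear forms -/

/-- The linear form with given coefficients. -/
def lin : (Fin n → ℂ) →ₗ[ℂ] MvPolynomial (Fin n) ℂ := Fintype.linearCombination ℂ X

theorem lin_apply (c : Fin n → ℂ) : lin c = ∑ i, c i • X i := rfl

theorem lin_single (i : Fin n) : lin (Pi.single i 1) = X i := by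
  classical
  unfold lin
  rw [Fintype.linearCombination_apply_single, one_smul]

theorem lin_isHomogeneous (c : Fin n → ℂ) : (lin c).IsHomogeneous 1 := by
  rw [lin_apply]
  refine IsHomogeneous.sum _ _ _ fun i _ => ?_
  rw [smul_eq_C_mul]
  simpa using (isHomogeneous_C (Fin n) (c i)).mul (isHomogeneous_X ℂ i)

theorem aeval_lin (u : Fin n → Fin n → ℂ) (c : Fin n → ℂ) :
    aeval (fun i => lin (u i)) (lin c) = lin (∑ j, c j • u j) := by
  rw [lin_apply, map_sum, map_sum]
  refine Finset.sum_congr rfl fun j _ => ?_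
  rw [map_smul, map_smul, aeval_X]

/-- The linear change of coordinates given by a basis. -/
def autB (b : Module.Basis (Fin n) ℂ (Fin n → ℂ)) :
    MvPolynomial (Fin n) ℂ ≃ₐ[ℂ] MvPolynomial (Fin n) ℂ :=
  AlgEquiv.ofAlgHom (aeval fun i => lin (b i))
    (aeval fun i => lin (b.repr (Pi.single i 1)))
    (by
      apply MvPolynomial.algHom_ext
      intro i
      rw [AlgHom.comp_apply, aeval_X, aeval_lin, b.sum_repr, lin_single, AlgHom.id_apply])
    (by
      apply MvPolynomial.algHom_ext
      intro i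
      have h : ∑ j, (b i) j • ⇑(b.repr (Pi.single j 1)) = ⇑(b.repr (b i)) := by
        have h1 : b i = ∑ j, (b i) j • (Pi.single j 1 : Fin n → ℂ) := by
          rw [← pi_eq_sum_univ' (b i)]
        conv_rhs => rw [h1, map_sum]
        rw [Finsupp.coe_finsetSum]
        refine Finset.sum_congr rfl fun j _ => ?_
        rw [map_smul, Finsupp.coe_smul]
      rw [AlgHom.comp_apply, aeval_X, aeval_lin, h, b.repr_self, Finsupp.single_eq_pi_single,
        lin_single, AlgHom.id_apply])

theorem autB_apply (b : Module.Basis (Fin n) ℂ (Fin n → ℂ)) (p : MvPolynomial (Fin n) ℂ) :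
    autB b p = aeval (fun i => lin (b i)) p := rfl

theorem autB_symm_apply (b : Module.Basis (Fin n) ℂ (Fin n → ℂ)) (p : MvPolynomial (Fin n) ℂ) :
    (autB b).symm p = aeval (fun i => lin (b.repr (Pi.single i 1))) p := rfl

/-- A basis of generalized eigenvectors. -/
theorem exists_basis (T : Module.End ℂ (Fin n → ℂ)) :
    ∃ (b : Module.Basis (Fin n) ℂ (Fin n → ℂ)) (lam : Fin n → ℂ),
      ∀ i, b i ∈ T.maxGenEigenspace (lam i) := by
  classical
  have hint : DirectSum.IsInternal T.maxGenEigenspace :=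
    DirectSum.isInternal_submodule_of_iSupIndep_of_iSup_eq_top T.independent_maxGenEigenspace
      T.iSup_maxGenEigenspace_eq_top
  let B := hint.collectedBasis (fun μ => Module.finBasis ℂ (T.maxGenEigenspace μ))
  let e := B.indexEquiv (Pi.basisFun ℂ (Fin n))
  refine ⟨B.reindex e, fun i => (e.symm i).1, fun i => ?_⟩
  rw [Module.Basis.reindex_apply]
  exact hint.collectedBasis_mem _ _

/-- A linear form is given by its derivatives. -/
theorem eq_lin {a : MvPolynomial (Fin n) ℂ} (ha : a.IsHomogeneous 1) :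
    a = lin fun i => coeff 0 (pderiv i a) := by
  have h1 : ∀ i, pderiv i a = C (coeff 0 (pderiv i a)) := by
    intro i
    have h2 : (pderiv i a).IsHomogeneous 0 := ha.pderiv
    exact totalDegree_eq_zero_iff_eq_C.1 (Nat.le_zero.1 h2.totalDegree_le)
  have h2 := ha.sum_X_mul_pderiv
  rw [one_smul] at h2
  conv_lhs => rw [← h2]
  rw [lin_apply]
  refine Finset.sum_congr rfl fun i _ => ?_
  rw [smul_eq_C_mul, ← h1 i, mul_comm]

/-- The linear vector field `∑ a_i ∂_i` acts on linear forms. -/
theorem mkDerivation_lin (a : Fin n → MvPolynomial (Fin n) ℂ) (A : Fin n → Fin n → ℂ)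
    (ha : ∀ i, a i = lin (A i)) (c : Fin n → ℂ) :
    mkDerivation ℂ a (lin c) = lin (Fintype.linearCombination ℂ A c) := by
  rw [lin_apply, map_sum, Fintype.linearCombination_apply, map_sum]
  refine Finset.sum_congr rfl fun i _ => ?_
  rw [Derivation.map_smul, map_smul, mkDerivation_X, ha i]

theorem lin_mem_gen {D : Derivation ℂ (MvPolynomial (Fin n) ℂ) (MvPolynomial (Fin n) ℂ)}
    {T : Module.End ℂ (Fin n → ℂ)} (hD : ∀ c, D (lin c) = lin (T c)) {c : Fin n → ℂ} {μ : ℂ}
    (hc : c ∈ T.maxGenEigenspace μ) :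
    lin c ∈ Module.End.maxGenEigenspace
      (D : MvPolynomial (Fin n) ℂ →ₗ[ℂ] MvPolynomial (Fin n) ℂ) μ := by
  rw [Module.End.mem_maxGenEigenspace] at hc ⊢
  obtain ⟨k, hk⟩ := hc
  refine ⟨k, ?_⟩
  have key : ∀ k : ℕ, (((D : MvPolynomial (Fin n) ℂ →ₗ[ℂ] MvPolynomial (Fin n) ℂ) -
      μ • (1 : Module.End ℂ (MvPolynomial (Fin n) ℂ))) ^ k) (lin c) =
      lin (((T - μ • (1 : Module.End ℂ (Fin n → ℂ))) ^ k) c) := by
    intro k
    induction k with
    | zero => rfl
    | succ k ih =>
      rw [pow_succ', Module.End.mul_apply, ih, pow_succ', Module.End.mul_apply,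
        LinearMap.sub_apply, LinearMap.smul_apply, Module.End.one_apply, Derivation.coeFn_coe, hD,
        LinearMap.sub_apply, LinearMap.smul_apply, Module.End.one_apply, map_sub, map_smul]
  rw [key, hk, map_zero]

theorem autB_monomial_mem (b : Module.Basis (Fin n) ℂ (Fin n → ℂ))
    {D : Derivation ℂ (MvPolynomial (Fin n) ℂ) (MvPolynomial (Fin n) ℂ)} {lam : Fin n → ℂ}
    (h : ∀ i, lin (b i) ∈ Module.End.maxGenEigenspace
      (D : MvPolynomial (Fin n) ℂ →ₗ[ℂ] MvPolynomial (Fin n) ℂ) (lam i))
    (v : Fin n →₀ ℕ) (c : ℂ) :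
    autB b (monomial v c) ∈ Module.End.maxGenEigenspace
      (D : MvPolynomial (Fin n) ℂ →ₗ[ℂ] MvPolynomial (Fin n) ℂ) (∑ i, lam i * v i) := by
  rw [autB_apply, aeval_monomial, algebraMap_eq, ← smul_eq_C_mul]
  refine Submodule.smul_mem _ _ ?_
  rw [Finsupp.prod_fintype _ _ (fun i => pow_zero _)]
  exact prod_mem_gen D _ fun i _ => pow_mem_gen D (h i) _

/-- The exponents of a polynomial killed by a linear vector field, in suitable coordinates. -/
theorem sum_eq_zero_of_mem_support (b : Module.Basis (Fin n) ℂ (Fin n → ℂ))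
    {D : Derivation ℂ (MvPolynomial (Fin n) ℂ) (MvPolynomial (Fin n) ℂ)} {lam : Fin n → ℂ}
    (h : ∀ i, lin (b i) ∈ Module.End.maxGenEigenspace
      (D : MvPolynomial (Fin n) ℂ →ₗ[ℂ] MvPolynomial (Fin n) ℂ) (lam i))
    {g : MvPolynomial (Fin n) ℂ} (hg : D (autB b g) = 0) {v : Fin n →₀ ℕ} (hv : v ∈ g.support) :
    ∑ i, lam i * v i = 0 := by
  classical
  by_contra hne
  set E := Module.End.maxGenEigenspace
    (D : MvPolynomial (Fin n) ℂ →ₗ[ℂ] MvPolynomial (Fin n) ℂ) with hE
  set dg : (Fin n →₀ ℕ) → ℂ := fun v => ∑ i, lam i * v i with hdg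
  set M : Finset ℂ := insert 0 (g.support.image dg) with hM
  set F : ℂ → MvPolynomial (Fin n) ℂ := fun μ =>
    ∑ v ∈ g.support.filter (fun v => dg v = μ), monomial v (coeff v g) with hF
  have hfE : autB b g ∈ E 0 := by
    rw [hE, Module.End.mem_maxGenEigenspace]
    refine ⟨1, ?_⟩
    rw [pow_one, LinearMap.sub_apply, LinearMap.smul_apply, zero_smul, sub_zero,
      Derivation.coeFn_coe, hg]
  have hFE : ∀ μ, autB b (F μ) ∈ E μ := by
    intro μ
    rw [hF]
    dsimp only
    rw [map_sum]
    refine Submodule.sum_mem _ fun v hv => ?_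
    rw [← (Finset.mem_filter.1 hv).2]
    exact autB_monomial_mem b h v _
  have hsum : ∑ μ ∈ M, autB b (F μ) = ∑ μ ∈ M, if μ = 0 then autB b g else 0 := by
    rw [Finset.sum_ite_eq' M 0 (fun _ => autB b g), if_pos (Finset.mem_insert_self _ _), ← map_sum]
    congr 1
    rw [hF]
    dsimp only
    rw [Finset.sum_fiberwise_of_maps_to (fun v hv => Finset.mem_insert_of_mem
      (Finset.mem_image_of_mem _ hv)), support_sum_monomial_coeff]
  have key := (iSupIndep_iff_finsetSum_eq_imp_eq E).1 (Module.End.independent_maxGenEigenspace _) M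
    (fun μ => autB b (F μ)) (fun μ => if μ = 0 then autB b g else 0) (by
      intro μ _
      refine ⟨hFE μ, ?_⟩
      split_ifs with h0
      · rw [h0]
        exact hfE
      · exact Submodule.zero_mem _) hsum (dg v)
    (Finset.mem_insert_of_mem (Finset.mem_image_of_mem _ hv))
  rw [if_neg hne] at key
  have h1 : F (dg v) = 0 := (map_eq_zero_iff _ (autB b).injective).1 key
  have h2 : coeff v (F (dg v)) = coeff v g := by
    rw [hF]
    dsimp only
    have hvm : v ∈ g.support.filter (fun u => dg u = dg v) := Finset.mem_filter.2 ⟨hv, rfl⟩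
    rw [coeff_sum, Finset.sum_eq_single_of_mem v hvm, coeff_monomial, if_pos rfl]
    intro u _ huv
    rw [coeff_monomial, if_neg huv]
  rw [h1, coeff_zero] at h2
  exact mem_support_iff.1 hv h2.symm

/-- The trace is the sum of the generalized eigenvalues. -/
theorem trace_eq_sum (T : Module.End ℂ (Fin n → ℂ)) (b : Module.Basis (Fin n) ℂ (Fin n → ℂ))
    (lam : Fin n → ℂ) (hb : ∀ i, b i ∈ T.maxGenEigenspace (lam i)) :
    LinearMap.trace ℂ (Fin n → ℂ) T = ∑ i, lam i := by
  classical
  set S : Module.End ℂ (Fin n → ℂ) := b.constr ℂ (fun i => lam i • b i) with hS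
  have hSb : ∀ i, S (b i) = lam i • b i := fun i => b.constr_basis ℂ _ i
  have hSE : ∀ μ, ∀ x ∈ T.maxGenEigenspace μ, S x = μ • x := by
    intro μ x hx
    set M : Finset ℂ := insert μ (Finset.univ.image lam) with hM
    set F : ℂ → (Fin n → ℂ) := fun ν =>
      ∑ i ∈ Finset.univ.filter (fun i => lam i = ν), b.repr x i • b i with hF
    have hFE : ∀ ν, F ν ∈ T.maxGenEigenspace ν := by
      intro ν
      rw [hF]
      dsimp only
      refine Submodule.sum_mem _ fun i hi => Submodule.smul_mem _ _ ?_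
      rw [← (Finset.mem_filter.1 hi).2]
      exact hb i
    have hmaps : ∀ i ∈ (Finset.univ : Finset (Fin n)), lam i ∈ M := fun i _ =>
      Finset.mem_insert_of_mem (Finset.mem_image_of_mem _ (Finset.mem_univ i))
    have hsum : ∑ ν ∈ M, F ν = ∑ ν ∈ M, if ν = μ then x else 0 := by
      rw [Finset.sum_ite_eq' M μ (fun _ => x), if_pos (Finset.mem_insert_self _ _), hF]
      dsimp only
      rw [Finset.sum_fiberwise_of_maps_to hmaps, b.sum_repr]
    have key := (iSupIndep_iff_finsetSum_eq_imp_eq T.maxGenEigenspace).1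
      T.independent_maxGenEigenspace M F (fun ν => if ν = μ then x else 0) (by
        intro ν _
        refine ⟨hFE ν, ?_⟩
        split_ifs with h0
        · rw [h0]
          exact hx
        · exact Submodule.zero_mem _) hsum
    have h1 : S x = ∑ ν ∈ M, ν • F ν := by
      conv_lhs => rw [← b.sum_repr x, map_sum]
      rw [← Finset.sum_fiberwise_of_maps_to hmaps]
      refine Finset.sum_congr rfl fun ν _ => ?_
      rw [hF]
      dsimp only
      rw [Finset.smul_sum]
      refine Finset.sum_congr rfl fun i hi => ?_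
      rw [map_smul, hSb, (Finset.mem_filter.1 hi).2, smul_comm]
    rw [h1, Finset.sum_congr rfl (fun ν hν => by rw [key ν hν])]
    simp only [smul_ite, smul_zero]
    rw [Finset.sum_ite_eq' M μ (fun ν => ν • x), if_pos (Finset.mem_insert_self _ _)]
  have hnil : IsNilpotent (T - S) := by
    have h4 : ∀ i, ∃ k : ℕ, ((T - S) ^ k) (b i) = 0 := by
      intro i
      obtain ⟨k, hk⟩ := (Module.End.mem_maxGenEigenspace _ _ _).1 (hb i)
      refine ⟨k, ?_⟩
      have h5 : ∀ k : ℕ, ((T - lam i • (1 : Module.End ℂ (Fin n → ℂ))) ^ k) (b i) ∈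
          T.maxGenEigenspace (lam i) := by
        intro k
        rw [Module.End.mem_maxGenEigenspace] at *
        obtain ⟨l, hl⟩ := (Module.End.mem_maxGenEigenspace _ _ _).1 (hb i)
        refine ⟨l, ?_⟩
        rw [← Module.End.mul_apply, ← pow_add, add_comm, pow_add, Module.End.mul_apply, hl,
          map_zero]
      have h6 : ∀ k : ℕ, ((T - S) ^ k) (b i) =
          ((T - lam i • (1 : Module.End ℂ (Fin n → ℂ))) ^ k) (b i) := by
        intro k
        induction k with
        | zero => rfl
        | succ k ih =>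
          rw [pow_succ', Module.End.mul_apply, ih, pow_succ', Module.End.mul_apply,
            LinearMap.sub_apply, LinearMap.sub_apply, hSE _ _ (h5 k), LinearMap.smul_apply,
            Module.End.one_apply]
      rw [h6, hk]
    choose k hk using h4
    refine ⟨∑ i, k i, ?_⟩
    apply b.ext
    intro i
    rw [← Finset.sum_erase_add _ _ (Finset.mem_univ i), pow_add, Module.End.mul_apply, hk,
      map_zero, LinearMap.zero_apply]
  have h5 := (LinearMap.isNilpotent_trace_of_isNilpotent hnil).eq_zero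
  rw [map_sub, sub_eq_zero] at h5
  rw [h5, LinearMap.trace_eq_matrix_trace ℂ b, Matrix.trace]
  refine Finset.sum_congr rfl fun i _ => ?_
  rw [Matrix.diag_apply, LinearMap.toMatrix_apply, hSb, map_smul, Finsupp.smul_apply,
    b.repr_self, Finsupp.single_eq_same, smul_eq_mul, mul_one]

/-- A rational linear functional turns the eigenvalues into integers. -/
theorem exists_int (lam : Fin n → ℂ) (h : ∑ i, lam i ≠ 0) :
    ∃ u : Fin n → ℤ, ∑ i, u i ≠ 0 ∧
      ∀ v : Fin n → ℕ, ∑ i, lam i * v i = 0 → ∑ i, u i * (v i : ℤ) = 0 := by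
  classical
  obtain ⟨φ, hφ⟩ : ∃ φ : Module.Dual ℚ ℂ, φ (∑ i, lam i) ≠ 0 := by
    by_contra hcon
    push Not at hcon
    exact h ((Module.forall_dual_apply_eq_zero_iff ℚ (∑ i, lam i)).1 hcon)
  set k : ℕ := ∏ i, (φ (lam i)).den with hk
  have hk0 : (k : ℚ) ≠ 0 := by
    rw [hk, Nat.cast_prod]
    exact Finset.prod_ne_zero_iff.2 fun i _ => by exact_mod_cast (φ (lam i)).den_nz
  set u : Fin n → ℤ := fun i =>
    (φ (lam i)).num * ((∏ j ∈ Finset.univ.erase i, (φ (lam j)).den : ℕ) : ℤ) with hu
  have hcast : ∀ i, (u i : ℚ) = k * φ (lam i) := by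
    intro i
    have h1 : k = (φ (lam i)).den * ∏ j ∈ Finset.univ.erase i, (φ (lam j)).den :=
      (Finset.mul_prod_erase _ _ (Finset.mem_univ i)).symm
    have h2 : φ (lam i) * ((φ (lam i)).den : ℚ) = (φ (lam i)).num := Rat.mul_den_eq_num _
    rw [h1, hu]
    push_cast
    rw [← h2]
    ring
  refine ⟨u, ?_, ?_⟩
  · intro h0
    have h1 : ((∑ i, u i : ℤ) : ℚ) = k * φ (∑ i, lam i) := by
      rw [map_sum, Finset.mul_sum]
      push_cast
      exact Finset.sum_congr rfl fun i _ => hcast i
    rw [h0, Int.cast_zero] at h1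
    exact (mul_ne_zero hk0 hφ) h1.symm
  · intro v hv
    have h1 : ((∑ i, u i * (v i : ℤ) : ℤ) : ℚ) = k * φ (∑ i, lam i * v i) := by
      rw [map_sum, Finset.mul_sum]
      push_cast
      refine Finset.sum_congr rfl fun i _ => ?_
      have h3 : φ (lam i * (v i : ℂ)) = (v i : ℚ) * φ (lam i) := by
        rw [mul_comm, ← nsmul_eq_mul, map_nsmul, nsmul_eq_mul]
      rw [hcast i, h3]
      ring
    rw [hv, map_zero, mul_zero] at h1
    exact_mod_cast h1

end NX

/-- If a linear vector field of non-zero divergence kills the homogeneous polynomial `f` of degree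
`d`, then, in suitable linear coordinates, `f` is weighted homogeneous with respect to positive
integral weights `w` of a degree `D > 0` such that `(∑ w_i) / D ≠ n / d`.

Proof.  As in `agQ/NSQ.lean` (`n = 3` there; the lemmas `lin`, `autB`, `exists_basis`, `eq_lin`,
`mkDerivation_lin`, `lin_mem_gen`, `autB_monomial_mem`, `sum_eq_zero_of_mem_support` and the
beginning of the proof of `stable_of_not_NS` are the same for all `n`; copy them into this file with
`Fin 3` replaced by `Fin n`, in the namespace `W`, and do not import NSQ): there are a basis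
`b` of `ℂ^n` and `lam : Fin n → ℂ` (generalized eigenvalues of the matrix of the vector field) such that
`g = (autB b).symm f` satisfies `∑ lam_i v_i = 0` for all `v ∈ g.support`; and `∑ lam_i ≠ 0`, because
`∑ lam_i` is the trace of the matrix, i.e. the divergence. (For the trace: the matrix `T` and
`T' = T - (diagonal with the eigenvalues lam_i in the basis b)`: `T'` is the nilpotent part; or use
`LinearMap.trace_eq_sum_trace_restrict` / `LinearMap.trace_eq_matrix_trace` and
`Module.End.isNilpotent_restrict_sub_algebraMap...`; or prove it by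
`LinearMap.trace_eq_sum_trace_restrict` over the maximal generalized eigenspaces.)  Choose a
`ℚ`-linear map `φ : ℂ → ℚ` with `φ (∑ lam_i) ≠ 0` (`Module.exists_dual_map...`,
`LinearMap.exists_extend`, or `exists_dual_forall_apply_eq_zero_iff`), and an integer `k > 0` such
that all `u_i = k φ(lam_i)` are integers. Then `∑ u_i v_i = 0` for `v ∈ g.support` and `∑ u_i ≠ 0`.
With an integer `c > |u_i|` for all `i`, `w_i = u_i + c > 0` and `D = c d > 0` work: `∑ w_i v_i = c d`
and `(∑ w_i) d = (∑ u_i) d + n c d ≠ n D`. -/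
theorem exists_weights {f : MvPolynomial (Fin n) ℂ} {d : ℕ} (hd : 0 < d)
    (hh : f.IsHomogeneous d) (h : ¬ NS f) :
    ∃ (e : MvPolynomial (Fin n) ℂ ≃ₐ[ℂ] MvPolynomial (Fin n) ℂ) (w : Fin n → ℕ) (D : ℕ),
      (∀ i, (e (X i)).IsHomogeneous 1) ∧ (∀ i, (e.symm (X i)).IsHomogeneous 1) ∧
      (∀ i, 0 < w i) ∧ 0 < D ∧ (e f).IsWeightedHomogeneous w D ∧ (∑ i, w i) * d ≠ n * D := by
  classical
  unfold NS at h
  push Not at h
  obtain ⟨a, ha, haf, hdiv⟩ := h
  -- the linear map
  set A : Fin n → Fin n → ℂ := fun j i => coeff 0 (pderiv i (a j)) with hA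
  have haA : ∀ j, a j = NX.lin (A j) := fun j => NX.eq_lin (ha j)
  set T : Module.End ℂ (Fin n → ℂ) := Fintype.linearCombination ℂ A with hT
  set D : Derivation ℂ (MvPolynomial (Fin n) ℂ) (MvPolynomial (Fin n) ℂ) := mkDerivation ℂ a with hD
  have hDT : ∀ c, D (NX.lin c) = NX.lin (T c) := NX.mkDerivation_lin a A haA
  have hDf : D f = 0 := by
    rw [← haf]
    have hcoe : ∀ (s : Finset (Fin n)) (p : MvPolynomial (Fin n) ℂ),
        (∑ i ∈ s, a i • (pderiv i : Derivation ℂ (MvPolynomial (Fin n) ℂ) _)) p =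
        ∑ i ∈ s, a i * pderiv i p := by
      intro s p
      induction s using Finset.induction_on with
      | empty => simp
      | insert i s hi ih =>
        rw [Finset.sum_insert hi, Finset.sum_insert hi, Derivation.add_apply, ih,
          Derivation.smul_apply, smul_eq_mul]
    have h0 : ∀ p, (∑ i, a i • (pderiv i : Derivation ℂ (MvPolynomial (Fin n) ℂ) _)) p =
        ∑ i, a i * pderiv i p := hcoe Finset.univ
    have h1 : D = ∑ i, a i • (pderiv i : Derivation ℂ (MvPolynomial (Fin n) ℂ) _) := by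
      apply MvPolynomial.derivation_ext
      intro j
      rw [hD, mkDerivation_X, h0, Finset.sum_eq_single j]
      · rw [pderiv_X_self, mul_one]
      · intro i _ hij
        rw [pderiv_X_of_ne hij.symm, mul_zero]
      · intro h2
        exact absurd (Finset.mem_univ j) h2
    rw [h1, h0]
  obtain ⟨b, lam, hb⟩ := NX.exists_basis T
  have hbD := fun i => NX.lin_mem_gen hDT (hb i)
  -- the polynomial in the new coordinates
  set g := (NX.autB b).symm f with hg
  have hfg : NX.autB b g = f := AlgEquiv.apply_symm_apply _ _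
  have hgh : g.IsHomogeneous d := by
    rw [hg, NX.autB_symm_apply]
    have := hh.aeval (fun i => NX.lin (b.repr (Pi.single i 1)))
      (fun i => NX.lin_isHomogeneous _)
    rwa [one_mul] at this
  have hsupp : ∀ v ∈ g.support, ∑ i, lam i * v i = 0 := fun v hv =>
    NX.sum_eq_zero_of_mem_support b hbD (by rw [hfg]; exact hDf) hv
  have hdeg : ∀ v ∈ g.support, ∑ i, v i = d := by
    intro v hv
    have h1 := hgh (mem_support_iff.1 hv)
    rw [Finsupp.weight_apply, Finsupp.sum_fintype _ _ (fun i => by simp)] at h1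
    simpa using h1
  -- the trace
  have htr : ∑ i, lam i ≠ 0 := by
    intro h0
    apply hdiv
    have h6 : ∀ i, pderiv i (a i) = C (A i i) := by
      intro i
      have h2 : (pderiv i (a i)).IsHomogeneous 0 := (ha i).pderiv
      exact totalDegree_eq_zero_iff_eq_C.1 (Nat.le_zero.1 h2.totalDegree_le)
    rw [Finset.sum_congr rfl fun i _ => h6 i, ← map_sum]
    have h7 : LinearMap.trace ℂ (Fin n → ℂ) T = ∑ i, A i i := by
      rw [LinearMap.trace_eq_matrix_trace ℂ (Pi.basisFun ℂ (Fin n)), Matrix.trace]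
      refine Finset.sum_congr rfl fun i _ => ?_
      rw [Matrix.diag_apply, LinearMap.toMatrix_apply, Pi.basisFun_apply, Pi.basisFun_repr, hT,
        Fintype.linearCombination_apply_single, one_smul]
    rw [← h7, NX.trace_eq_sum T b lam hb, h0, map_zero]
  obtain ⟨u, hu0, hu⟩ := NX.exists_int lam htr
  -- the weights
  set c : ℕ := 1 + ∑ i, (u i).natAbs with hc
  have hcu : ∀ i, 0 < u i + c := by
    intro i
    have h1 : (u i).natAbs ≤ ∑ i, (u i).natAbs :=
      Finset.single_le_sum (f := fun i => (u i).natAbs) (fun _ _ => Nat.zero_le _)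
        (Finset.mem_univ i)
    omega
  have hw : ∀ i, (((u i + c).toNat : ℕ) : ℤ) = u i + c := fun i =>
    Int.toNat_of_nonneg (hcu i).le
  refine ⟨(NX.autB b).symm, fun i => (u i + c).toNat, c * d, fun i => ?_, fun i => ?_, fun i => ?_,
    Nat.mul_pos (by omega) hd, ?_, ?_⟩
  · rw [NX.autB_symm_apply, aeval_X]
    exact NX.lin_isHomogeneous _
  · rw [AlgEquiv.symm_symm, NX.autB_apply, aeval_X]
    exact NX.lin_isHomogeneous _
  · exact Int.pos_iff_toNat_pos.1 (hcu i)
  · intro v hv
    have hv' : v ∈ g.support := mem_support_iff.2 hv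
    have h1 := hu (fun i => v i) (hsupp v hv')
    have h2 := hdeg v hv'
    rw [Finsupp.weight_apply, Finsupp.sum_fintype _ _ (fun i => by simp)]
    have h3 : ((∑ i, v i • (u i + c).toNat : ℕ) : ℤ) = ((c * d : ℕ) : ℤ) := by
      push_cast
      have h4 : ∀ i, (v i : ℤ) * (((u i + c).toNat : ℕ) : ℤ) = u i * (v i : ℤ) + c * v i := by
        intro i
        rw [hw]
        ring
      simp only [smul_eq_mul, Nat.cast_mul]
      rw [Finset.sum_congr rfl fun i _ => h4 i, Finset.sum_add_distrib, h1, zero_add,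
        ← Finset.mul_sum, ← h2]
      push_cast
      rfl
    exact_mod_cast h3
  · intro h0
    have h1 : (((∑ i, (u i + c).toNat) * d : ℕ) : ℤ) = ((n * (c * d) : ℕ) : ℤ) := by
      rw [h0]
    push_cast at h1
    rw [Finset.sum_congr rfl fun i _ => hw i, Finset.sum_add_distrib, Finset.sum_const,
      Finset.card_univ, Fintype.card_fin, nsmul_eq_mul] at h1
    have h2 : (∑ i, u i) * (d : ℤ) = 0 := by linear_combination h1
    rcases mul_eq_zero.1 h2 with h3 | h3
    · exact hu0 h3
    · exact hd.ne' (by exact_mod_cast h3)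

end W

end MPb07157
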