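import Pool.Agent.Lib.MP_b07157_agW.WZ
import Pool.Agent.Lib.MP_b07157_agW.WX
import Pool.Agent.Lib.MP_b07157_agS.SE
import Pool.Agent.Lib.MP_b07157_agK.K1

/-!
# Homogeneous polynomials killed by a linear vector field of non-zero divergence: the zeta function
-/

noncomputable section

namespace MPb07157

open MvPolynomial

namespace W

variable {n : ℕ}

/-- The chain rule. -/
theorem pderiv_aeval (u : Fin n → MvPolynomial (Fin n) ℂ) (g : MvPolynomial (Fin n) ℂ)
    (i : Fin n) : pderiv i (aeval u g) = ∑ j, aeval u (pderiv j g) * pderiv i (u j) := by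
  induction g using MvPolynomial.induction_on with
  | C a =>
    simp only [aeval_C, algebraMap_eq, pderiv_C, map_zero, zero_mul, Finset.sum_const_zero]
  | add p q hp hq =>
    simp only [map_add, hp, hq, add_mul, Finset.sum_add_distrib]
  | mul_X p k hp =>
    rw [map_mul, aeval_X, Derivation.leibniz, hp, smul_eq_mul, smul_eq_mul]
    have h1 : ∀ j, aeval u (pderiv j (p * X k)) * pderiv i (u j) =
        (if j = k then aeval u p * pderiv i (u k) else 0) +
          u k * (aeval u (pderiv j p) * pderiv i (u j)) := by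
      intro j
      rw [Derivation.leibniz, smul_eq_mul, smul_eq_mul, map_add, map_mul, map_mul, aeval_X]
      by_cases hjk : j = k
      · rw [if_pos hjk, hjk, pderiv_X_self, map_one]
        ring
      · rw [if_neg hjk, pderiv_X_of_ne (Ne.symm hjk), map_zero]
        ring
    rw [Finset.sum_congr rfl fun j _ => h1 j, Finset.sum_add_distrib,
      Finset.sum_ite_eq' Finset.univ k, if_pos (Finset.mem_univ k), ← Finset.mul_sum]

theorem eval_algEquiv (e : MvPolynomial (Fin n) ℂ ≃ₐ[ℂ] MvPolynomial (Fin n) ℂ)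
    (p : Fin n → ℂ) (g : MvPolynomial (Fin n) ℂ) :
    eval p (e g) = eval (fun i => eval p (e (X i))) g := by
  induction g using MvPolynomial.induction_on with
  | C a =>
    rw [← algebraMap_eq, AlgEquiv.commutes, algebraMap_eq, eval_C, eval_C]
  | add a b ha hb => rw [map_add, map_add, map_add, ha, hb]
  | mul_X a i ha => rw [map_mul, map_mul, map_mul, ha, eval_X]

theorem eval_symm_eval (e : MvPolynomial (Fin n) ℂ ≃ₐ[ℂ] MvPolynomial (Fin n) ℂ)
    (q : Fin n → ℂ) :
    (fun i => eval (fun i => eval q (e.symm (X i))) (e (X i))) = q := by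
  funext i
  rw [← eval_algEquiv e.symm q (e (X i)), AlgEquiv.symm_apply_apply, eval_X]

theorem algEquiv_eq_aeval (e : MvPolynomial (Fin n) ℂ ≃ₐ[ℂ] MvPolynomial (Fin n) ℂ)
    (p : MvPolynomial (Fin n) ℂ) : e p = aeval (fun i => e (X i)) p := by
  have h : (aeval (fun i => e (X i)) : MvPolynomial (Fin n) ℂ →ₐ[ℂ] MvPolynomial (Fin n) ℂ) =
      (e : MvPolynomial (Fin n) ℂ →ₐ[ℂ] MvPolynomial (Fin n) ℂ) := by
    apply MvPolynomial.algHom_ext
    intro i
    rw [aeval_X]
    rfl
  rw [h]
  rfl

/-- The critical points of `e f` and of `f`. -/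
theorem grad_algEquiv (e : MvPolynomial (Fin n) ℂ ≃ₐ[ℂ] MvPolynomial (Fin n) ℂ)
    {f : MvPolynomial (Fin n) ℂ} {p : Fin n → ℂ} (h : ∀ j, eval p (pderiv j (e f)) = 0)
    (i : Fin n) : eval (fun i => eval p (e (X i))) (pderiv i f) = 0 := by
  have h1 : f = aeval (fun i => e.symm (X i)) (e f) := by
    rw [← algEquiv_eq_aeval e.symm, AlgEquiv.symm_apply_apply]
  have h2 : pderiv i f = ∑ j, e.symm (pderiv j (e f)) * pderiv i (e.symm (X j)) := by
    conv_lhs => rw [h1]
    rw [pderiv_aeval]
    refine Finset.sum_congr rfl fun j _ => ?_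
    rw [← algEquiv_eq_aeval e.symm]
  rw [h2, map_sum]
  refine Finset.sum_eq_zero fun j _ => ?_
  rw [map_mul, eval_algEquiv e.symm]
  have h3 : (fun i => eval (fun i => eval p (e (X i))) (e.symm (X i))) = p :=
    eval_symm_eval e.symm p
  rw [h3, h j, zero_mul]

theorem coeff_zero_arc {m : ℕ} (g : MvPolynomial (Fin n) ℂ) (γ : Fin n × Fin (m + 1) → ℂ) :
    PowerSeries.coeff 0 (aeval (arc γ) g : PowerSeries ℂ) = eval (fun i => γ (i, 0)) g := by
  by_cases hg : g = 0
  · rw [hg, map_zero, map_zero, map_zero]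
  · exact coeff_zero_Fv hg γ

theorem jet_base (e : MvPolynomial (Fin n) ℂ ≃ₐ[ℂ] MvPolynomial (Fin n) ℂ) {M : ℕ}
    (γ : Fin n × Fin (M + 1) → ℂ) :
    (fun i => polyMap (jetPoly (fun j => e (X j)) (M + 1)) γ (i, 0)) =
      fun i => eval (fun i => γ (i, 0)) (e (X i)) := by
  funext i
  rw [polyMap_jetPoly]
  exact coeff_zero_arc _ γ

theorem seriesAt_algEquiv (e : MvPolynomial (Fin n) ℂ ≃ₐ[ℂ] MvPolynomial (Fin n) ℂ)
    (g : MvPolynomial (Fin n) ℂ) {V : Set (Fin n → ℂ)} (hV : IsConstr V) :
    seriesAt (e g) {p | (fun i => eval p (e (X i))) ∈ V} = seriesAt g V := by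
  have hf : e g = C 1 * e g ^ 1 := by rw [pow_one, map_one, one_mul]
  have hV' : IsConstr {p : Fin n → ℂ | (fun i => eval p (e (X i))) ∈ V} :=
    hV.preimage (fun i => e (X i))
  have key : ∀ M : ℕ, cls (arcs (e g) (M + 1) M ∩
      AtW {p | (fun i => eval p (e (X i))) ∈ V} M) = cls (arcs g (M + 1) M ∩ AtW V M) := by
    intro M
    refine cls_bijOn ((isConstr_arcs _ _ _).inter (isConstr_AtW hV' M))
      ((isConstr_arcs _ _ _).inter (isConstr_AtW hV M)) (jetPoly (fun j => e (X j)) (M + 1))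
      ⟨?_, ?_, ?_⟩
    · intro γ hγ
      refine ⟨?_, ?_⟩
      · have h1 := (order_jetG one_ne_zero hf γ (Nat.lt_succ_self M)).1 hγ.1
        rwa [one_smul] at h1
      · show (fun i => polyMap (jetPoly (fun j => e (X j)) (M + 1)) γ (i, 0)) ∈ V
        rw [jet_base]
        exact hγ.2
    · intro γ _ γ' _ heq
      rw [← jetG_jetG e γ, heq, jetG_jetG e γ']
    · intro γ hγ
      have h3 : polyMap (jetPoly (fun j => e (X j)) (M + 1))
          (polyMap (jetPoly (fun j => e.symm (X j)) (M + 1)) γ) = γ := jetG_jetG e.symm γ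
      refine ⟨polyMap (jetPoly (fun j => e.symm (X j)) (M + 1)) γ, ⟨?_, ?_⟩, h3⟩
      · refine (order_jetG one_ne_zero hf _ (Nat.lt_succ_self M)).2 ?_
        rw [h3, one_smul]
        exact hγ.1
      · show (fun i => eval (fun i => polyMap (jetPoly (fun j => e.symm (X j)) (M + 1)) γ (i, 0))
          (e (X i))) ∈ V
        rw [← jet_base, h3]
        exact hγ.2
  ext M
  unfold seriesAt clsM
  rw [PowerSeries.coeff_mk, PowerSeries.coeff_mk, key M]

theorem eval_smul_hom {f : MvPolynomial (Fin n) ℂ} {d : ℕ} (hf : f.IsHomogeneous d) (c : ℂ)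
    (x : Fin n → ℂ) : eval (c • x) f = c ^ d * eval x f := by
  rw [eval_eq', eval_eq', Finset.mul_sum]
  refine Finset.sum_congr rfl fun v hv => ?_
  have h1 : ∑ i, v i = d := by
    have := hf (mem_support_iff.1 hv)
    rw [← this]
    simp [Finsupp.weight_apply, Finsupp.sum_fintype]
  simp only [Pi.smul_apply, smul_eq_mul, mul_pow, Finset.prod_mul_distrib]
  rw [Finset.prod_pow_eq_pow_sum, h1]
  ring

/-- **The candidate pole `-n/d`.** Let `f` be homogeneous of degree `d` in `n` variables with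
finitely many singular lines, and let it be killed by a linear vector field of non-zero divergence.
If `-n/d ≠ -1` is not a pole of the zeta functions at the singular points outside the origin, then it
is not a pole of the zeta function of `f`. -/
theorem zmot_mem_of_not_NS {f : MvPolynomial (Fin n) ℂ} {d : ℕ} (hd : 0 < d)
    (hh : f.IsHomogeneous d) (hNS : ¬ NS f) (B : Finset (Fin n → ℂ)) (hB0 : ∀ b ∈ B, b ≠ 0)
    (hB : ∀ p, p ≠ 0 → (∀ j, eval p (pderiv j f) = 0) → ∃ b ∈ B, ∃ c : ℂ, p = c • b)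
    {s₀ : ℚ} (hs : s₀ ≠ -1) (hsd : s₀ = -(n / d))
    (hreg : ∀ b ∈ B, seriesAt f {b} ∈ regularAt s₀) : Zmot f ∈ regularAt s₀ := by
  classical
  obtain ⟨e, w, D, he, he', -, hD, hw, hne⟩ := exists_weights hd hh hNS
  have hfw := hw
  set A : (Fin n → ℂ) → Fin n → ℂ := fun p i => eval p (e (X i)) with hA
  set A' : (Fin n → ℂ) → Fin n → ℂ := fun p i => eval p (e.symm (X i)) with hA'
  have hAA' : ∀ p, A (A' p) = p := eval_symm_eval e
  have hA'A : ∀ p, A' (A p) = p := eval_symm_eval e.symm
  have hAs : ∀ (c : ℂ) p, A (c • p) = c • A p := by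
    intro c p
    funext i
    simp only [hA, Pi.smul_apply, smul_eq_mul]
    rw [eval_smul_hom (he i), pow_one]
  have hA's : ∀ (c : ℂ) p, A' (c • p) = c • A' p := by
    intro c p
    funext i
    simp only [hA', Pi.smul_apply, smul_eq_mul]
    rw [eval_smul_hom (he' i), pow_one]
  have hA0 : A 0 = 0 := by
    have := hAs 0 0
    rwa [zero_smul, zero_smul] at this
  have hA'0 : A' 0 = 0 := by
    have := hA's 0 0
    rwa [zero_smul, zero_smul] at this
  have heh : (e f).IsHomogeneous d := by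
    rw [algEquiv_eq_aeval]
    have := hh.aeval (fun i => e (X i)) he
    rwa [one_mul] at this
  have hser : ∀ b, seriesAt (e f) {A' b} = seriesAt f {b} := by
    intro b
    rw [← seriesAt_algEquiv e f (isConstr_point b)]
    congr 1
    ext p
    simp only [Set.mem_singleton_iff, Set.mem_ofPred_eq]
    constructor
    · rintro rfl
      exact hAA' b
    · intro h
      rw [← hA'A p]
      exact congrArg A' h
  have h1 : Zmot (e f) ∈ regularAt s₀ := by
    refine zmot_mem_of_weights heh hD hfw (B.image A') ?_ ?_ hs ?_ ?_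
    · intro b' hb'
      obtain ⟨b, hb, rfl⟩ := Finset.mem_image.1 hb'
      intro h
      apply hB0 b hb
      rw [← hAA' b, h, hA0]
    · intro p hp hg
      obtain ⟨b, hb, c, hc⟩ := hB (A p) (fun h => hp (by rw [← hA'A p, h, hA'0]))
        (fun i => grad_algEquiv e hg i)
      exact ⟨A' b, Finset.mem_image_of_mem _ hb, c, by rw [← hA's, ← hc, hA'A]⟩
    · intro h
      apply hne
      rw [hsd, neg_neg] at h
      have hDq : (D : ℚ) ≠ 0 := by exact_mod_cast hD.ne'
      have hdq : (d : ℚ) ≠ 0 := by exact_mod_cast hd.ne'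
      rw [div_eq_div_iff hDq hdq] at h
      exact_mod_cast h
    · intro b' hb'
      obtain ⟨b, hb, rfl⟩ := Finset.mem_image.1 hb'
      rw [hser]
      exact hreg b hb
  have h2 : Zmot (e f) = Zmot f := by
    have := seriesAt_algEquiv e f (V := Set.univ) IsConstr.univ
    simpa [seriesAt_univ] using this
  rwa [h2] at h1

end W

end MPb07157
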