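import Pool.Agent.Lib.MP_b07157_agM.StrHom
import Pool.Agent.Lib.MP_b07157_agI.IsoA
import Pool.Agent.Lib.MP_b07157_agW.WM

/-!
# Homogeneous polynomials with finitely many singular lines: the origin
-/

noncomputable section

namespace MPb07157

open MvPolynomial

variable {n : ℕ}

/-- If a homogeneous polynomial of degree `d` in `n` variables with finitely many singular lines is
killed by a linear vector field of non-zero divergence and `-n/d ≠ -1` is a pole of its zeta
function, then `-n/d` is a pole of the zeta function of the germ at a singular point outside the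
origin. -/
theorem exists_pole_of_not_NS {f : MvPolynomial (Fin n) ℂ} {d : ℕ} (hd : 0 < d)
    (hh : f.IsHomogeneous d) (hNS : ¬ NS f) (B : Finset (Fin n → ℂ))
    (hB : ∀ p : Fin n → ℂ, p ≠ 0 → (∀ i, eval p (pderiv i f) = 0) →
      ∃ b ∈ B, ∃ c : ℂ, p = c • b)
    {s₀ : ℚ} (hs : s₀ ≠ -1) (hsd : s₀ = -(n / d))
    (hp : IsPole (Zmot f) s₀ ∨ IsPole (Zmot0 f) s₀) :
    ∃ p : Fin n → ℂ, p ≠ 0 ∧ eval p f = 0 ∧ (∀ i, eval p (pderiv i f) = 0) ∧
      IsPole (Zmot0 (translate p f)) s₀ := by
  classical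
  by_contra hcon
  push Not at hcon
  have hEuler : ∀ p : Fin n → ℂ, (∀ i, eval p (pderiv i f) = 0) → eval p f = 0 := by
    intro p hp
    have h1 := congrArg (eval p) hh.sum_X_mul_pderiv
    rw [map_sum, nsmul_eq_mul, map_mul, map_natCast,
      Finset.sum_eq_zero fun i _ => by rw [map_mul, hp i, mul_zero]] at h1
    have hd' : (d : ℂ) ≠ 0 := by exact_mod_cast hd.ne'
    exact (mul_eq_zero.1 h1.symm).resolve_left hd'
  set B' := B.filter fun b => b ≠ 0 ∧ ∀ i, eval b (pderiv i f) = 0 with hB'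
  have hreg : Zmot f ∈ regularAt s₀ := by
    refine W.zmot_mem_of_not_NS hd hh hNS B' (fun b hb => (Finset.mem_filter.1 hb).2.1) ?_ hs hsd ?_
    · intro p hp0 hp1
      obtain ⟨b, hb, c, rfl⟩ := hB p hp0 hp1
      have hc : c ≠ 0 := by
        rintro rfl
        exact hp0 (zero_smul _ _)
      have hb0 : b ≠ 0 := by
        rintro rfl
        exact hp0 (smul_zero _)
      refine ⟨b, Finset.mem_filter.2 ⟨hb, hb0, fun i => ?_⟩, c, rfl⟩
      have h1 := hp1 i
      rw [W.eval_smul_hom hh.pderiv] at h1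
      exact (mul_eq_zero.1 h1).resolve_left (pow_ne_zero _ hc)
    · intro b hb
      obtain ⟨-, hb0, hb1⟩ := Finset.mem_filter.1 hb
      have h1 := hcon b hb0 (hEuler b hb1) hb1
      unfold IsPole at h1
      rw [seriesAt_singleton]
      exact not_not.1 h1
  rcases hp with hp | hp
  · exact hp hreg
  · apply hp
    rw [Zmot0_homog hh hd]
    exact mul_mem (C_mem_regularAt s₀ _) (mul_mem (pow_mem (X_mem_regularAt s₀) d) hreg)

/-- The local version of the conjecture for a linear form. -/
theorem smcLoc_linear {f : MvPolynomial (Fin n) ℂ} (hf : f ≠ 0) (hh : f.IsHomogeneous 1) :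
    SmcLoc f := by
  intro s₀ hs hpole b hb
  have h0 : (0 : Fin n →₀ ℕ) ∉ f.support := by
    rw [notMem_support_iff]
    exact hh.coeff_eq_zero (by simp)
  by_cases hs1 : s₀ = -1
  · have h2 := neg_one_root hf h0 b hb
    rw [hs1]
    exact h2
  exfalso
  apply hpole
  have h1 := seriesAt_mem_of_snc (ι := Unit) (g := fun _ => f) (m := fun _ => 1) (fun _ => hf)
    (fun _ => one_pos) (isConstr_point (0 : Fin n → ℂ)) (fun p hp => ?_) (s₀ := s₀)
    (fun i hi => ?_)
  · have h2 : ∏ _i : Unit, f ^ 1 = f := by simp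
    rw [h2, seriesAt_point_zero] at h1
    exact h1
  · have hex : ∃ i, pderiv i f ≠ 0 := by
      by_contra hcon
      push Not at hcon
      have h2 := hh.sum_X_mul_pderiv
      rw [Finset.sum_eq_zero fun i _ => by rw [hcon i, mul_zero], one_smul] at h2
      exact hf h2.symm
    obtain ⟨i, hi⟩ := hex
    have h3 : pderiv i f = C (coeff 0 (pderiv i f)) := by
      have h2 : (pderiv i f).IsHomogeneous 0 := hh.pderiv
      exact totalDegree_eq_zero_iff_eq_C.1 (Nat.le_zero.1 h2.totalDegree_le)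
    have h4 : coeff 0 (pderiv i f) ≠ 0 := by
      intro h5
      apply hi
      rw [h3, h5, map_zero]
    have hp0 : eval p f = 0 := by
      rw [Set.mem_singleton_iff.1 hp]
      have h5 : coeff 0 f = 0 := by rwa [notMem_support_iff] at h0
      have h6 : eval (0 : Fin n → ℂ) f = constantCoeff f := by
        rw [show (0 : Fin n → ℂ) = fun _ => 0 from rfl, eval_zero']
      rw [h6, constantCoeff_eq, h5]
    refine LinearIndependent.of_subsingleton (⟨(), hp0⟩ : {i : Unit // eval p f = 0}) ?_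
    intro h5
    have h6 := congrFun h5 i
    simp only [Pi.zero_apply] at h6
    rw [h3, eval_C] at h6
    exact h4 h6
  · rw [Nat.cast_one, div_one]
    exact hs1

/-- Homogeneous polynomials whose singular points outside the origin lie on
finitely many lines, on which some polynomial vector field which kills the polynomial does not
vanish: no condition at the origin is needed. -/
theorem smcLoc_cone_iso {f : MvPolynomial (Fin n) ℂ} (hf : f ≠ 0) {d : ℕ} (hd : 0 < d)
    (hh : f.IsHomogeneous d) {T : Set (Set (Fin n → ℂ))}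
    (hT : T.Finite) (hcov : ∀ p, p ≠ 0 → eval p f = 0 → ∃ W ∈ T, p ∈ W)
    {P : (k : ℕ) → MvPolynomial (Fin k) ℂ → Prop}
    (hP : ∀ (k : ℕ) (g : MvPolynomial (Fin k) ℂ), P k g → g ≠ 0 → coeff 0 g = 0 → SmcLoc g)
    (h : ∀ W ∈ T, IsConstr W ∧ ∃ (k : ℕ) (g : MvPolynomial (Fin k) ℂ), P k g ∧ TrivAlong f W g)
    (hiso : IsoLines f) : SmcLoc f := by
  rcases Nat.lt_or_ge 1 d with hd2 | hd2
  swap
  · have hd1 : d = 1 := by omega
    subst hd1
    exact smcLoc_linear hf hh
  obtain ⟨B, hB⟩ := hiso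
  by_cases hNS : NS f
  · refine smcLoc_cone0 hf hd hh hT hcov hP h (Or.inr (Or.inl ⟨?_, hNS⟩))
    rcases n with _ | m
    · exfalso
      apply hf
      have h1 : f = C (coeff 0 f) := by
        ext v
        rw [coeff_C, if_pos (Subsingleton.elim _ _)]
        congr 1
        exact Subsingleton.elim _ _
      rw [h1, hh.coeff_eq_zero (by simp; omega), map_zero]
    · exact linType_of_isolated hd2 hh (fun p hp0 hp1 => (hB p hp0 hp1).2)
        (fun p hp0 hp1 => (hB p hp0 hp1).1)
  intro s₀ hs hpole b hb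
  have hbg : IsBernsteinSato f b := isBernsteinSato_of_form_homogeneous hh hb
  have key : ∀ (k : ℕ) (g : MvPolynomial (Fin k) ℂ) (p : Fin n → ℂ), P k g →
      TrivAlong f {p} g → eval p f = 0 → IsPole (Zmot0 g) s₀ → b.eval (s₀ : ℂ) = 0 := by
    intro k g p hg ht h0 hpole'
    exact hP k g hg (ne_zero_of_trivAlong ht hf) (coeff_zero_of_trivAlong ht h0) s₀ hs hpole' b
      (form_of_trivAlong ht hbg)
  rcases pole_of_cone hf hd hh hT hcov h (Or.inr hpole) with h1 | ⟨k, g, p, hg, ht, h0, hpole'⟩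
  · by_cases hs1 : s₀ = -1
    · have h0 : (0 : Fin n →₀ ℕ) ∉ f.support := by
        rw [notMem_support_iff]
        exact hh.coeff_eq_zero (by simp; omega)
      have h2 := neg_one_root hf h0 b hb
      rw [hs1]
      exact h2
    obtain ⟨p, hp0, hpf, hp1, hpp⟩ := exists_pole_of_not_NS hd hh hNS B
      (fun p hp0 hp1 => (hB p hp0 hp1).2) hs1 h1 (Or.inr hpole)
    obtain ⟨W, hW, hpW⟩ := hcov p hp0 hpf
    obtain ⟨k, g, hg, ht⟩ := (h W hW).2
    have ht' : TrivAlong f {p} g := ht.mono (Set.singleton_subset_iff.2 hpW)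
    refine key k g p hg ht' hpf ?_
    intro hreg
    apply hpp
    rw [← seriesAt_singleton]
    exact seriesAt_mem_of_trivAlong (isConstr_point p) ht' (fun _ => hreg)
  · exact key k g p hg ht h0 hpole'

/-- Homogeneous polynomials of degree `d` in `n` variables which satisfy the condition `ConeRoot`
and are trivial along strata outside the origin, with germs that satisfy the local version. -/
theorem smcLoc_cone {f : MvPolynomial (Fin n) ℂ} (hf : f ≠ 0) {d : ℕ} (hd : 0 < d)
    (hh : f.IsHomogeneous d) {T : Set (Set (Fin n → ℂ))}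
    (hT : T.Finite) (hcov : ∀ p, p ≠ 0 → eval p f = 0 → ∃ W ∈ T, p ∈ W)
    {P : (k : ℕ) → MvPolynomial (Fin k) ℂ → Prop}
    (hP : ∀ (k : ℕ) (g : MvPolynomial (Fin k) ℂ), P k g → g ≠ 0 → coeff 0 g = 0 → SmcLoc g)
    (h : ∀ W ∈ T, IsConstr W ∧ ∃ (k : ℕ) (g : MvPolynomial (Fin k) ℂ), P k g ∧ TrivAlong f W g)
    (hroot : ConeRoot f d) : SmcLoc f := by
  rcases hroot with h1 | h1
  · exact smcLoc_cone0 hf hd hh hT hcov hP h h1
  · exact smcLoc_cone_iso hf hd hh hT hcov hP h h1

end MPb07157
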