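import Pool.Agent.Lib.MP_b07157_agW.WDefs

/-!
# Arcs along which the gradient has bounded order
-/

noncomputable section

namespace MPb07157

open MvPolynomial

namespace W

variable {n : ℕ}

theorem arc_update {N : ℕ} (γ : Fin n × Fin N → ℂ) (j : Fin n) (r : Fin N) (c : ℂ) :
    arc (Function.update γ (j, r) (γ (j, r) + c)) =
      Function.update (arc γ) j (arc γ j + PowerSeries.C c * PowerSeries.X ^ (r : ℕ)) := by
  funext i
  ext k
  by_cases hi : i = j
  · subst hi
    rw [Function.update_self, map_add, coeff_arc, coeff_arc, PowerSeries.coeff_C_mul,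
      PowerSeries.coeff_X_pow]
    by_cases hk : k < N
    · rw [dif_pos hk, dif_pos hk]
      by_cases hr : k = (r : ℕ)
      · have h1 : (⟨k, hk⟩ : Fin N) = r := Fin.ext hr
        rw [h1, Function.update_self, if_pos hr, mul_one]
      · rw [Function.update_of_ne, if_neg hr, mul_zero, add_zero]
        intro h
        exact hr (congrArg (fun q : Fin n × Fin N => (q.2 : ℕ)) h)
    · rw [dif_neg hk, dif_neg hk, if_neg, mul_zero, add_zero]
      intro h
      exact hk (h ▸ r.2)
  · rw [Function.update_of_ne hi, coeff_arc, coeff_arc]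
    by_cases hk : k < N
    · rw [dif_pos hk, dif_pos hk, Function.update_of_ne]
      intro h
      exact hi (congrArg Prod.fst h)
    · rw [dif_neg hk, dif_neg hk]

theorem aeval_update_add (f : MvPolynomial (Fin n) ℂ) (x : Fin n → PowerSeries ℂ) (j : Fin n)
    (h : PowerSeries ℂ) :
    ∃ k : PowerSeries ℂ, (aeval (Function.update x j (x j + h)) f : PowerSeries ℂ) =
      aeval x f + h * aeval x (pderiv j f) + h ^ 2 * k := by
  obtain ⟨k, hk⟩ := eval_update_add (map (algebraMap ℂ (PowerSeries ℂ)) f) x j h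
  refine ⟨k, ?_⟩
  rw [pderiv_map, eval_map, eval_map, eval_map] at hk
  rw [aeval_def, aeval_def, aeval_def]
  exact hk

/-- The jets of level `N` with truncation in `S` along which `f` vanishes to order `≥ m`. -/
def BB (f : MvPolynomial (Fin n) ℂ) (A : ℕ) (S : Set (Fin n × Fin A → ℂ)) (N m : ℕ) :
    Set (Fin n × Fin N → ℂ) :=
  {γ | tr A (arc γ) ∈ S ∧
    ∀ k ∈ Finset.range m, PowerSeries.coeff k (aeval (arc γ) f : PowerSeries ℂ) = 0}

theorem isConstr_BB (f : MvPolynomial (Fin n) ℂ) {A : ℕ} {S : Set (Fin n × Fin A → ℂ)}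
    (hS : IsConstr S) {N : ℕ} (h : A ≤ N) (m : ℕ) : IsConstr (BB f A S N m) := by
  refine isConstr_setOf_and (isConstr_tr h hS) (isConstr_forall_mem _ _ fun k _ => ?_)
  obtain ⟨P, hP⟩ := exists_coeff_poly (N := N) f k
  simp only [hP]
  exact isConstr_eq_zero P

theorem BB_left (f : MvPolynomial (Fin n) ℂ) {A : ℕ} (S : Set (Fin n × Fin A → ℂ)) {M : ℕ}
    (h : A ≤ M) (k : ℕ) :
    BB f A S (M + k) M = {γ : Fin n × Fin (M + k) → ℂ | leftPart γ ∈ BB f A S M M} := by
  ext γ
  simp only [BB, Set.mem_ofPred_eq, Finset.mem_range]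
  refine and_congr ?_ ?_
  · rw [tr_congr h fun i => X_pow_dvd_arc_left γ i]
  · refine forall_congr' fun l => imp_congr_right fun hl => ?_
    have h1 := PowerSeries.X_pow_dvd_iff.1
      (aeval_congr_X_pow M f _ _ fun i => X_pow_dvd_arc_left γ i) l hl
    rw [map_sub, sub_eq_zero] at h1
    rw [h1]

theorem hensel_BB (f : MvPolynomial (Fin n) ℂ) {A : ℕ} {S : Set (Fin n × Fin A → ℂ)}
    (hS : IsConstr S) (j : Fin n) {e : ℕ}
    (hj : ∀ x : Fin n → PowerSeries ℂ, tr A x ∈ S →
      (aeval x (pderiv j f) : PowerSeries ℂ).order = e) {N m : ℕ} (hA : A ≤ N)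
    (hm : A + e ≤ m) (hm' : 2 * e < m) (hN : m < N) :
    cls (BB f A S N (m + 1)) * L = cls (BB f A S N m) ∧
    cls (cyl f A S N m) = cls (BB f A S N (m + 1)) * (L - 1) := by
  have hB : {x | x ∈ BB f A S N m ∧
      PowerSeries.coeff m (aeval (arc x) f : PowerSeries ℂ) = 0} = BB f A S N (m + 1) := by
    ext γ
    simp only [BB, Set.mem_ofPred_eq, Finset.mem_range]
    constructor
    · rintro ⟨⟨h1, h2⟩, h3⟩
      refine ⟨h1, fun i hi => ?_⟩
      rcases Nat.lt_or_ge i m with h4 | h4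
      · exact h2 i h4
      · rw [show i = m by omega]; exact h3
    · rintro ⟨h1, h2⟩
      exact ⟨⟨h1, fun i hi => h2 i (by omega)⟩, h2 m (by omega)⟩
  have hC : {x | x ∈ BB f A S N m ∧
      PowerSeries.coeff m (aeval (arc x) f : PowerSeries ℂ) ≠ 0} = cyl f A S N m := by
    ext γ
    simp only [BB, cyl, arcs, Set.mem_ofPred_eq, Finset.mem_range, PowerSeries.order_eq_nat]
    tauto
  set r : Fin N := ⟨m - e, by omega⟩ with hr
  have key1 : ∀ γ ∈ BB f A S N m, ∀ c : ℂ,
      (∀ l < m, PowerSeries.coeff l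
        (aeval (arc (Function.update γ (j, r) (γ (j, r) + c))) f : PowerSeries ℂ) =
        PowerSeries.coeff l (aeval (arc γ) f : PowerSeries ℂ)) ∧
      PowerSeries.coeff m
        (aeval (arc (Function.update γ (j, r) (γ (j, r) + c))) f : PowerSeries ℂ) =
        PowerSeries.coeff m (aeval (arc γ) f : PowerSeries ℂ) +
          c * PowerSeries.coeff e (aeval (arc γ) (pderiv j f) : PowerSeries ℂ) := by
    rintro γ ⟨h1, -⟩ c
    obtain ⟨k, hk⟩ := aeval_update_add f (arc γ) j (PowerSeries.C c * PowerSeries.X ^ (m - e))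
    have h2 := (PowerSeries.order_eq_nat.1 (hj (arc γ) h1)).2
    have h3 : (PowerSeries.C c * PowerSeries.X ^ (m - e)) ^ 2 * k =
        PowerSeries.X ^ (m + 1) * (PowerSeries.C c ^ 2 * PowerSeries.X ^ (m - 2 * e - 1) * k) := by
      rw [mul_pow, ← pow_mul, show (m - e) * 2 = m + 1 + (m - 2 * e - 1) by omega, pow_add]
      ring
    rw [arc_update, hr]
    rw [hk, h3]
    have h4 : ∀ l, PowerSeries.coeff l (PowerSeries.C c * PowerSeries.X ^ (m - e) *
        (aeval (arc γ) (pderiv j f) : PowerSeries ℂ)) = if m - e ≤ l then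
          c * PowerSeries.coeff (l - (m - e)) (aeval (arc γ) (pderiv j f) : PowerSeries ℂ)
          else 0 := by
      intro l
      rw [mul_assoc, PowerSeries.coeff_C_mul, PowerSeries.coeff_X_pow_mul']
      split_ifs
      · rfl
      · rw [mul_zero]
    have h6 : ∀ l < m + 1, ∀ Q : PowerSeries ℂ,
        PowerSeries.coeff l (PowerSeries.X ^ (m + 1) * Q) = 0 := fun l hl Q =>
      PowerSeries.X_pow_dvd_iff.1 (dvd_mul_right _ _) l hl
    constructor
    · intro l hl
      rw [map_add, map_add, h4, h6 l (by omega), add_zero]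
      split_ifs with h5
      · rw [h2 _ (by omega), mul_zero, add_zero]
      · rw [add_zero]
    · rw [map_add, map_add, h4, h6 m (by omega), add_zero,
        if_pos (Nat.sub_le m e), show m - (m - e) = e by omega]
  have hup : ∀ γ ∈ BB f A S N m, ∀ c : ℂ,
      Function.update γ (j, r) (γ (j, r) + c) ∈ BB f A S N m := by
    rintro γ hγ c
    refine ⟨?_, fun i hi => ?_⟩
    · have : tr A (arc (Function.update γ (j, r) (γ (j, r) + c))) = tr A (arc γ) := by
        rw [tr_arc hA, tr_arc hA]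
        funext q
        show Function.update γ (j, r) (γ (j, r) + c) (q.1, Fin.castLE hA q.2) = _
        rw [Function.update_of_ne]
        intro h
        have h1 := congrArg (fun q : Fin n × Fin N => (q.2 : ℕ)) h
        simp only [hr, Fin.val_castLE] at h1
        have := q.2.2
        omega
      rw [this]
      exact hγ.1
    · rw [(key1 γ hγ c).1 i (Finset.mem_range.1 hi)]
      exact hγ.2 i hi
  have key := hensel_step (BB f A S N m) (isConstr_BB f hS hA m)
    (fun γ => PowerSeries.coeff m (aeval (arc γ) f : PowerSeries ℂ)) (exists_coeff_poly f m)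
    (j, r) hup
    (fun γ => PowerSeries.coeff e (aeval (arc γ) (pderiv j f) : PowerSeries ℂ))
    (fun γ hγ => (PowerSeries.order_eq_nat.1 (hj (arc γ) hγ.1)).1)
    (fun γ hγ c => (key1 γ hγ c).2)
  rw [hB, hC] at key
  exact key

theorem nrm_mul_LU {N : ℕ} {S T : Set (Fin n × Fin N → ℂ)} (h : cls S * L = cls T) :
    nrm S * (LU : Mot) = nrm T := by
  unfold nrm clsM
  rw [← h, map_mul, ← LU_val, mul_assoc]

theorem nrm_sub_one {N : ℕ} {S T : Set (Fin n × Fin N → ℂ)} (h : cls T = cls S * (L - 1)) :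
    nrm T = nrm S * ((LU : Mot) - 1) := by
  unfold nrm clsM
  rw [h, map_mul, map_sub, map_one, ← LU_val, mul_assoc]

theorem nrm_BB (f : MvPolynomial (Fin n) ℂ) {A : ℕ} {S : Set (Fin n × Fin A → ℂ)}
    (hS : IsConstr S) (j : Fin n) {e : ℕ}
    (hj : ∀ x : Fin n → PowerSeries ℂ, tr A x ∈ S →
      (aeval x (pderiv j f) : PowerSeries ℂ).order = e) {M : ℕ}
    (hM : A + e ≤ M) (hM' : 2 * e < M) {N : ℕ} (k : ℕ) (hk : M + k ≤ N) :
    nrm (BB f A S N (M + k)) = nrm (BB f A S N M) * (↑(LU⁻¹) : Mot) ^ k := by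
  induction k with
  | zero => rw [pow_zero, mul_one, Nat.add_zero]
  | succ k ih =>
    have h1 := nrm_mul_LU (hensel_BB f hS j hj (N := N) (m := M + k) (by omega) (by omega)
      (by omega) (by omega)).1
    rw [ih (by omega)] at h1
    have h2 : nrm (BB f A S N (M + (k + 1))) =
        nrm (BB f A S N (M + (k + 1))) * (LU : Mot) * (↑(LU⁻¹) : Mot) := by
      rw [mul_assoc, Units.mul_inv, mul_one]
    rw [h2]
    rw [show M + (k + 1) = M + k + 1 from rfl, h1, pow_succ, mul_assoc]

theorem ser_mem_core (f : MvPolynomial (Fin n) ℂ) {A : ℕ} {S : Set (Fin n × Fin A → ℂ)}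
    (hS : IsConstr S) (j : Fin n) {e : ℕ}
    (hj : ∀ x : Fin n → PowerSeries ℂ, tr A x ∈ S →
      (aeval x (pderiv j f) : PowerSeries ℂ).order = e)
    {s₀ : ℚ} (hs : s₀ ≠ -1) : ser f A S ∈ regularAt s₀ := by
  set M : ℕ := 2 * e + A + 1 with hM
  refine mem_of_eventually hs M (nrm (BB f A S M M) * (((LU : Mot) - 1) * (↑(LU⁻¹) : Mot)))
    fun m hm => ?_
  obtain ⟨k, rfl⟩ : ∃ k, m = M + k := ⟨m - M, by omega⟩
  rw [coeff_ser f hS (N := M + (k + 1)) (by omega) (by omega),
    nrm_sub_one (hensel_BB f hS j hj (N := M + (k + 1)) (m := M + k) (by omega) (by omega)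
      (by omega) (by omega)).2]
  have h1 := nrm_BB f hS j hj (M := M) (by omega) (by omega) (N := M + (k + 1)) (k + 1) le_rfl
  rw [show M + (k + 1) = M + k + 1 from rfl] at h1 ⊢
  rw [h1]
  have h2 : BB f A S (M + k + 1) M =
      {γ : Fin n × Fin (M + (k + 1)) → ℂ | leftPart γ ∈ BB f A S M M} :=
    BB_left f S (by omega) (k + 1)
  rw [h2]
  have h3 : nrm {γ : Fin n × Fin (M + (k + 1)) → ℂ | leftPart γ ∈ BB f A S M M} =
      nrm (BB f A S M M) := nrm_left (isConstr_BB f hS (by omega) M)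
  refine (congrArg (fun z : Mot => z * (↑(LU⁻¹) : Mot) ^ (k + 1) * ((LU : Mot) - 1)) h3).trans ?_
  rw [Nat.add_sub_cancel_left, pow_succ]
  ring

theorem order_of_tr {g : MvPolynomial (Fin n) ℂ} {A e : ℕ} (he : e < A)
    {x : Fin n → PowerSeries ℂ} (hx : tr A x ∈ arcs g A e) :
    (aeval x g : PowerSeries ℂ).order = e := by
  refine (order_congr he (aeval_congr_X_pow A g x (arc (tr A x)) fun i => ?_)).2 hx
  rw [PowerSeries.X_pow_dvd_iff]
  intro l hl
  rw [map_sub, coeff_arc, dif_pos hl, sub_eq_zero]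
  rfl

theorem ser_mem_of_cover (f : MvPolynomial (Fin n) ℂ) {A : ℕ} {s₀ : ℚ} (hs : s₀ ≠ -1)
    (I : Finset (ℕ × Fin n)) (hI : ∀ p ∈ I, p.1 < A) :
    ∀ S : Set (Fin n × Fin A → ℂ), IsConstr S →
      (∀ ξ ∈ S, ∃ p ∈ I, ξ ∈ arcs (pderiv p.2 f) A p.1) → ser f A S ∈ regularAt s₀ := by
  classical
  induction I using Finset.induction_on with
  | empty =>
    intro S _ h
    have : S = ∅ := by
      ext ξ
      simp only [Set.mem_empty_iff_false, iff_false]
      intro hξ
      obtain ⟨p, hp, -⟩ := h ξ hξ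
      exact absurd hp (Finset.notMem_empty p)
    rw [this, ser_empty]
    exact zero_mem _
  | insert p I hp ih =>
    intro S hS h
    have hT : IsConstr (arcs (pderiv p.2 f) A p.1) := isConstr_arcs _ _ _
    have h1 : S = (S ∩ arcs (pderiv p.2 f) A p.1) ∪ (S \ arcs (pderiv p.2 f) A p.1) :=
      (Set.inter_union_sdiff _ _).symm
    rw [h1, ser_union f (hS.inter hT) (hS.diff hT) Set.disjoint_sdiff_inter.symm]
    refine add_mem ?_ ?_
    · refine ser_mem_core f (hS.inter hT) p.2 (e := p.1) (fun x hx => ?_) hs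
      exact order_of_tr (hI p (Finset.mem_insert_self _ _)) hx.2
    · refine ih (fun q hq => hI q (Finset.mem_insert_of_mem hq)) _ (hS.diff hT) ?_
      rintro ξ ⟨h2, h3⟩
      obtain ⟨q, hq, h4⟩ := h ξ h2
      rcases Finset.mem_insert.1 hq with rfl | hq
      · exact absurd h4 h3
      · exact ⟨q, hq, h4⟩

/-- The zeta function of the arcs along which some partial derivative has order at most `E` has no
pole except `-1`.

Proof.  Let `A = a + E + 1`. The arcs are divided according to a pair `(e, j)` with `e ≤ E` and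
`ord ∂_j f (x(t)) = e`. This
only depends on the first `E + 1` coefficients of the arc (`aeval_congr_X_pow`, `order_congr`), so it
corresponds to disjoint constructible sets `S_{e,j} ⊆ ℂ^(n × A)`; by
`ser_level`, `ser_union` (induction) it is enough to treat
`S' = S_{e,j}`, for which `ord ∂_j f (x) = e` for all arcs `x` with
`tr A x ∈ S'`.  Let `M = 2 e + A + 1`. For
`M ≤ m < N` let `B(N, m)` be the set of the jets `γ` of level `N` with `tr A (arc γ) ∈ S'` and
`coeff k (f (arc γ)) = 0` for `k < m`.  If `γ ∈ B(N, m)` and `γ' = Function.update γ (j, m - e) (γ (j, m - e) + c)`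
(note `m - e ≥ A`, `m - e < N`), i.e. `arc γ' = arc γ + c t^(m - e) e_j`, then
`f(arc γ') ≡ f(arc γ) + c t^(m - e) ∂_j f(arc γ)  mod t^(2 (m - e))` and `2 (m - e) > m`,
so `γ' ∈ B(N, m)` and
`coeff m f(arc γ') = coeff m f(arc γ) + c * coeff e (∂_j f (arc γ))`.  Therefore `hensel_step`
gives
`cls (B(N, m + 1)) * L = cls (B(N, m))` and `cls (cyl f A S' N m) = cls (B(N, m + 1)) * (L - 1)`.
As `B(N, M)` is the preimage of `B(M, M)` under `leftPart`, `nrm (B(N, M)) = nrm (B(M, M))`
(`nrm_left`).  So `coeff m (ser f A S') = nrm (B(M, M)) * ((LU : Mot) - 1) * (LU⁻¹)^(m + 1 - M)` for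
`m ≥ M` and `mem_of_eventually` applies. -/
theorem ser_mem_of_bounded {f : MvPolynomial (Fin n) ℂ} {a : ℕ} {S : Set (Fin n × Fin a → ℂ)}
    (hS : IsConstr S) {E : ℕ}
    (hE : ∀ x : Fin n → PowerSeries ℂ, tr a x ∈ S →
      ∃ j, (aeval x (pderiv j f) : PowerSeries ℂ).order ≤ (E : ℕ∞))
    {s₀ : ℚ} (hs : s₀ ≠ -1) : ser f a S ∈ regularAt s₀ := by
  have ha : a ≤ a + E + 1 := by omega
  rw [ser_level f ha hS]
  refine ser_mem_of_cover f hs (Finset.range (E + 1) ×ˢ Finset.univ) ?_ _
    (hS.reindex (fun q : Fin n × Fin a => ((q.1, Fin.castLE ha q.2) : Fin n × Fin (a + E + 1))))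
    ?_
  · intro p hp
    have := Finset.mem_range.1 (Finset.mem_product.1 hp).1
    omega
  · intro ξ hξ
    obtain ⟨j, hj⟩ := hE (arc ξ) (by rw [tr_arc ha]; exact hξ)
    obtain ⟨e, he⟩ := ENat.ne_top_iff_exists.1 (ne_top_of_le_ne_top (ENat.natCast_ne_top E) hj)
    rw [← he] at hj
    have h1 : e ≤ E := by exact_mod_cast hj
    refine ⟨(e, j), Finset.mem_product.2 ⟨Finset.mem_range.2 (by show e < E + 1; omega),
      Finset.mem_univ _⟩, ?_⟩
    exact he.symm

end W

end MPb07157
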