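import Pool.Agent.Lib.MP_b07157_agK.K1b

/-!
# Cylinders: the zeta functions of the arcs with a given truncation

`ser f a S` is the zeta function of `f` restricted to the arcs `x(t)` in `ℂ^n` whose first `a`
coefficients belong to the constructible set `S ⊆ ℂ^(n × a)`.
-/

noncomputable section

namespace MPb07157

open MvPolynomial

namespace W

variable {n : ℕ}

/-- The first `a` coefficients of an arc. -/
def tr (a : ℕ) (x : Fin n → PowerSeries ℂ) : Fin n × Fin a → ℂ :=
  fun q => PowerSeries.coeff (q.2 : ℕ) (x q.1)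

theorem tr_arc {a N : ℕ} (h : a ≤ N) (γ : Fin n × Fin N → ℂ) :
    tr a (arc γ) = fun q => γ (q.1, Fin.castLE h q.2) := by
  funext q
  unfold tr
  rw [coeff_arc, dif_pos (q.2.2.trans_le h)]
  rfl

/-- Two arcs which agree modulo `t^a` have the same truncation. -/
theorem tr_congr {a N : ℕ} (h : a ≤ N) {x y : Fin n → PowerSeries ℂ}
    (hxy : ∀ i, (PowerSeries.X : PowerSeries ℂ) ^ N ∣ x i - y i) : tr a x = tr a y := by
  funext q
  unfold tr
  have := PowerSeries.X_pow_dvd_iff.1 (hxy q.1) q.2 (q.2.2.trans_le h)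
  rwa [map_sub, sub_eq_zero] at this

theorem isConstr_tr {a N : ℕ} (h : a ≤ N) {S : Set (Fin n × Fin a → ℂ)} (hS : IsConstr S) :
    IsConstr {γ : Fin n × Fin N → ℂ | tr a (arc γ) ∈ S} := by
  have h1 := hS.reindex (fun q : Fin n × Fin a => ((q.1, Fin.castLE h q.2) : Fin n × Fin N))
  convert h1 using 1
  ext γ
  simp only [Set.mem_ofPred_eq, tr_arc h]

/-- The jets `γ` of level `N` with `ord f(γ) = m` whose first `a` coefficients are in `S`. -/
def cyl (f : MvPolynomial (Fin n) ℂ) (a : ℕ) (S : Set (Fin n × Fin a → ℂ)) (N m : ℕ) :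
    Set (Fin n × Fin N → ℂ) :=
  {γ | γ ∈ arcs f N m ∧ tr a (arc γ) ∈ S}

theorem isConstr_cyl (f : MvPolynomial (Fin n) ℂ) {a : ℕ} {S : Set (Fin n × Fin a → ℂ)}
    (hS : IsConstr S) {N : ℕ} (h : a ≤ N) (m : ℕ) : IsConstr (cyl f a S N m) :=
  (isConstr_arcs f N m).inter (isConstr_tr h hS)

/-- The normalized class of a set of jets of level `N`. -/
def nrm {N : ℕ} (T : Set (Fin n × Fin N → ℂ)) : Mot := ↑((LU ^ (n * N))⁻¹) * clsM T

theorem clsM_left {N k : ℕ} {T : Set (Fin n × Fin N → ℂ)} (hT : IsConstr T) :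
    clsM {γ : Fin n × Fin (N + k) → ℂ | leftPart γ ∈ T} = clsM T * ((LU ^ (n * k) : Motˣ) : Mot) := by
  have h1 : {γ : Fin n × Fin (N + k) → ℂ | leftPart γ ∈ T} =
      {γ : Fin n × Fin (N + k) → ℂ | leftPart γ ∈ T ∧
        rightPart γ ∈ (Set.univ : Set (Fin n × Fin k → ℂ))} := by
    ext γ
    simp
  rw [h1, clsM_mul_eq (cls_split hT IsConstr.univ), clsM_univ]
  simp only [Fintype.card_prod, Fintype.card_fin]

theorem nrm_left {N k : ℕ} {T : Set (Fin n × Fin N → ℂ)} (hT : IsConstr T) :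
    nrm {γ : Fin n × Fin (N + k) → ℂ | leftPart γ ∈ T} = nrm T := by
  unfold nrm
  rw [clsM_left hT, mul_add, pow_add, mul_inv, Units.val_mul, mul_comm (clsM T), mul_assoc,
    ← mul_assoc (((LU ^ (n * k))⁻¹ : Motˣ) : Mot), Units.inv_mul, one_mul]

theorem X_pow_dvd_arc_left {N k : ℕ} (γ : Fin n × Fin (N + k) → ℂ) (i : Fin n) :
    (PowerSeries.X : PowerSeries ℂ) ^ N ∣ arc γ i - arc (leftPart γ) i := by
  rw [arc_split, add_sub_cancel_left]
  exact dvd_mul_right _ _

theorem mem_cyl_left (f : MvPolynomial (Fin n) ℂ) {a : ℕ} (S : Set (Fin n × Fin a → ℂ)) {N m : ℕ}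
    (ha : a ≤ N) (hm : m < N) (k : ℕ) :
    cyl f a S (N + k) m = {γ : Fin n × Fin (N + k) → ℂ | leftPart γ ∈ cyl f a S N m} := by
  ext γ
  simp only [cyl, arcs, Set.mem_ofPred_eq]
  refine and_congr ?_ ?_
  · exact order_congr hm (aeval_congr_X_pow N f _ _ fun i => X_pow_dvd_arc_left γ i)
  · rw [tr_congr ha fun i => X_pow_dvd_arc_left γ i]

theorem nrm_cyl_add (f : MvPolynomial (Fin n) ℂ) {a : ℕ} {S : Set (Fin n × Fin a → ℂ)}
    (hS : IsConstr S) {N m : ℕ} (ha : a ≤ N) (hm : m < N) (k : ℕ) :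
    nrm (cyl f a S (N + k) m) = nrm (cyl f a S N m) := by
  rw [mem_cyl_left f S ha hm, nrm_left (isConstr_cyl f hS ha m)]

/-- The zeta function of `f` restricted to the arcs whose first `a` coefficients are in `S`. -/
def ser (f : MvPolynomial (Fin n) ℂ) (a : ℕ) (S : Set (Fin n × Fin a → ℂ)) : PowerSeries Mot :=
  PowerSeries.mk fun m => nrm (cyl f a S (a + m + 1) m)

/-- The coefficients of `ser f a S` may be computed at any sufficiently large level. -/
theorem coeff_ser (f : MvPolynomial (Fin n) ℂ) {a : ℕ} {S : Set (Fin n × Fin a → ℂ)}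
    (hS : IsConstr S) {N m : ℕ} (ha : a ≤ N) (hm : m < N) :
    PowerSeries.coeff m (ser f a S) = nrm (cyl f a S N m) := by
  unfold ser
  rw [PowerSeries.coeff_mk, ← nrm_cyl_add f hS ha hm (a + m + 1),
    ← nrm_cyl_add f hS (N := a + m + 1) (by omega) (by omega) N]
  have key : ∀ M M' : ℕ, M = M' → nrm (cyl f a S M m) = nrm (cyl f a S M' m) := by
    rintro M _ rfl
    rfl
  exact key _ _ (by omega)

theorem ser_union (f : MvPolynomial (Fin n) ℂ) {a : ℕ} {S T : Set (Fin n × Fin a → ℂ)}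
    (hS : IsConstr S) (hT : IsConstr T) (h : Disjoint S T) :
    ser f a (S ∪ T) = ser f a S + ser f a T := by
  ext m
  rw [map_add, coeff_ser f (hS.union hT) (N := a + m + 1) (by omega) (by omega),
    coeff_ser f hS (N := a + m + 1) (by omega) (by omega),
    coeff_ser f hT (N := a + m + 1) (by omega) (by omega)]
  unfold nrm
  rw [← mul_add]
  congr 1
  have h1 : cyl f a (S ∪ T) (a + m + 1) m =
      cyl f a S (a + m + 1) m ∪ cyl f a T (a + m + 1) m := by
    ext γ
    simp only [cyl, Set.mem_ofPred_eq, Set.mem_union]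
    tauto
  unfold clsM
  rw [h1, cls_union (isConstr_cyl f hS (by omega) m) (isConstr_cyl f hT (by omega) m), map_add]
  rw [Set.disjoint_left] at h ⊢
  rintro γ ⟨-, h2⟩ ⟨-, h3⟩
  exact h h2 h3

theorem ser_empty (f : MvPolynomial (Fin n) ℂ) (a : ℕ) :
    ser f a (∅ : Set (Fin n × Fin a → ℂ)) = 0 := by
  ext m
  have h1 : cyl f a (∅ : Set (Fin n × Fin a → ℂ)) (a + m + 1) m = ∅ := by
    ext γ
    simp [cyl]
  unfold ser nrm clsM
  rw [PowerSeries.coeff_mk, h1, cls_empty, map_zero, mul_zero, map_zero]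

theorem ser_univ (f : MvPolynomial (Fin n) ℂ) (a : ℕ) :
    ser f a (Set.univ : Set (Fin n × Fin a → ℂ)) = Zmot f := by
  ext m
  have h1 : cyl f a (Set.univ : Set (Fin n × Fin a → ℂ)) (a + m + 1) m =
      arcs f (a + m + 1) m := by
    ext γ
    simp [cyl]
  unfold ser Zmot
  rw [PowerSeries.coeff_mk, PowerSeries.coeff_mk, h1, ← mu_eq f (show m < a + m + 1 by omega)]
  rfl

/-- Change of the level of the cylinder. -/
theorem ser_level (f : MvPolynomial (Fin n) ℂ) {a a' : ℕ} (h : a ≤ a')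
    {S : Set (Fin n × Fin a → ℂ)} (hS : IsConstr S) :
    ser f a S = ser f a' {ξ | (fun q : Fin n × Fin a => ξ (q.1, Fin.castLE h q.2)) ∈ S} := by
  have hS' : IsConstr {ξ : Fin n × Fin a' → ℂ |
      (fun q : Fin n × Fin a => ξ (q.1, Fin.castLE h q.2)) ∈ S} :=
    hS.reindex (fun q : Fin n × Fin a => ((q.1, Fin.castLE h q.2) : Fin n × Fin a'))
  ext m
  rw [coeff_ser f hS (N := a' + m + 1) (by omega) (by omega),
    coeff_ser f hS' (N := a' + m + 1) (by omega) (by omega)]
  congr 1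

/-- The truncations of the arcs which start at `p`. -/
theorem ser_point (f : MvPolynomial (Fin n) ℂ) (a : ℕ) (p : Fin n → ℂ) :
    ser f (a + 1) {ξ | (fun i => ξ (i, 0)) = p} = seriesAt f {p} := by
  have hS : IsConstr {ξ : Fin n × Fin (a + 1) → ℂ | (fun i => ξ (i, 0)) = p} := by
    have h := isConstr_forall_mem (σ := Fin n × Fin (a + 1)) Finset.univ
      (fun (j : Fin n) ξ => ξ (j, 0) = p j)
      (fun j _ => by
        have := isConstr_eq_zero (X (j, 0) - C (p j) : MvPolynomial (Fin n × Fin (a + 1)) ℂ)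
        simpa [sub_eq_zero] using this)
    convert h using 1
    ext x
    simp [funext_iff]
  have hS1 : IsConstr {ξ : Fin n × Fin 1 → ℂ | (fun i => ξ (i, 0)) = p} := by
    have h := isConstr_forall_mem (σ := Fin n × Fin 1) Finset.univ
      (fun (j : Fin n) ξ => ξ (j, 0) = p j)
      (fun j _ => by
        have := isConstr_eq_zero (X (j, 0) - C (p j) : MvPolynomial (Fin n × Fin 1) ℂ)
        simpa [sub_eq_zero] using this)
    convert h using 1
    ext x
    simp [funext_iff]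
  have e1 : ser f (a + 1) {ξ | (fun i => ξ (i, 0)) = p} =
      ser f 1 {ξ | (fun i => ξ (i, 0)) = p} := by
    rw [ser_level f (Nat.le_add_left 1 a) hS1]
    congr 1
  rw [e1]
  ext m
  rw [coeff_ser f hS1 (N := m + 1) (by omega) (by omega)]
  unfold seriesAt nrm
  rw [PowerSeries.coeff_mk]
  congr 2
  ext γ
  simp only [cyl, AtW, Set.mem_inter_iff, Set.mem_ofPred_eq, Set.mem_singleton_iff]
  refine and_congr_right fun _ => ?_
  rw [tr_arc (by omega)]
  rfl

/-- A series which is geometric of ratio `L⁻¹` from some index on is regular at `s₀ ≠ -1`. -/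
theorem mem_of_eventually {φ : PowerSeries Mot} {s₀ : ℚ} (hs : s₀ ≠ -1) (M : ℕ) (c : Mot)
    (h : ∀ m, M < m → PowerSeries.coeff m φ = c * (↑(LU⁻¹) : Mot) ^ (m - M)) :
    φ ∈ regularAt s₀ := by
  have h1 : φ = ∑ k ∈ Finset.range (M + 1),
      PowerSeries.C (PowerSeries.coeff k φ) * PowerSeries.X ^ k +
      PowerSeries.C c * (PowerSeries.X ^ M * geoK (↑(LU⁻¹) : Mot) 1) := by
    ext m
    rw [map_add, map_sum, PowerSeries.coeff_C_mul, PowerSeries.coeff_X_pow_mul']
    simp only [PowerSeries.coeff_C_mul, PowerSeries.coeff_X_pow, mul_ite, mul_one, mul_zero,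
      geoK, PowerSeries.coeff_mk, one_dvd, true_and, Nat.div_one]
    rcases Nat.lt_or_ge M m with h2 | h2
    · rw [Finset.sum_eq_zero, zero_add, if_pos h2.le, if_pos (by omega), h m h2]
      intro k hk
      rw [if_neg]
      have := Finset.mem_range.1 hk
      omega
    · rw [Finset.sum_eq_single m]
      · rw [if_pos rfl, if_neg (show ¬ 0 < m - M by omega), ite_self, add_zero]
      · intro k _ hk
        rw [if_neg (Ne.symm hk)]
      · intro hm
        exact absurd (Finset.mem_range.2 (by omega)) hm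
  rw [h1]
  refine add_mem (sum_mem fun k _ => mul_mem (C_mem_regularAt s₀ _)
    (pow_mem (X_mem_regularAt s₀) k)) (mul_mem (C_mem_regularAt s₀ _)
      (mul_mem (pow_mem (X_mem_regularAt s₀) M) (geoK_mem one_pos ?_)))
  rw [Nat.cast_one, div_one]
  exact hs

/-- The inverse of `1 - L^{-k} T^D`. -/
theorem exists_inv {D : ℕ} (hD : 0 < D) (k : ℕ) {s₀ : ℚ} (h : (k : ℚ) / D ≠ -s₀) :
    ∃ g ∈ regularAt s₀,
      g * (1 - PowerSeries.C (↑((LU ^ k)⁻¹) : Mot) * PowerSeries.X ^ D) = 1 := by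
  have h1 : PowerSeries.constantCoeff
      (1 - PowerSeries.C (↑((LU ^ k)⁻¹) : Mot) * PowerSeries.X ^ D) = ((1 : Motˣ) : Mot) := by
    simp [hD.ne']
  have h2 := PowerSeries.mul_invOfUnit
    (1 - PowerSeries.C (↑((LU ^ k)⁻¹) : Mot) * PowerSeries.X ^ D) 1 h1
  refine ⟨_, ?_, (mul_comm _ _).trans h2⟩
  refine Algebra.subset_adjoin (Or.inr ⟨(k : ℤ), D, hD, by rw [Int.cast_natCast]; exact h, ?_⟩)
  rw [zpow_neg, zpow_natCast]
  exact (mul_comm _ _).trans h2

/-- The points of the line through `b` with parameter `c(t)`. -/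
def mulB {a : ℕ} (c : Fin a → ℂ) (b : Fin n → ℂ) : Fin n × Fin a → ℂ := fun q => c q.2 * b q.1

/-- The truncations of the arcs of the form `c(t) b`. -/
def lineS (a : ℕ) (b : Fin n → ℂ) : Set (Fin n × Fin a → ℂ) := {ξ | ∃ c : Fin a → ℂ, ξ = mulB c b}

theorem mem_lineS_iff {a : ℕ} {b : Fin n → ℂ} {i₀ : Fin n} (hi : b i₀ ≠ 0)
    (ξ : Fin n × Fin a → ℂ) :
    ξ ∈ lineS a b ↔ ∀ i, ∀ k, ξ (i, k) * b i₀ = ξ (i₀, k) * b i := by
  constructor
  · rintro ⟨c, rfl⟩ i k
    simp only [mulB]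
    ring
  · intro h
    refine ⟨fun k => ξ (i₀, k) / b i₀, ?_⟩
    funext ⟨i, k⟩
    simp only [mulB]
    have := h i k
    field_simp
    linear_combination this

theorem isConstr_lineS (a : ℕ) {b : Fin n → ℂ} (hb : b ≠ 0) : IsConstr (lineS a b) := by
  obtain ⟨i₀, hi⟩ := Function.ne_iff.1 hb
  have h := isConstr_forall_mem (σ := Fin n × Fin a) Finset.univ
    (fun (q : Fin n × Fin a) ξ => ξ q * b i₀ - ξ (i₀, q.2) * b q.1 = 0)
    (fun q _ => by
      have := isConstr_eq_zero (X q * C (b i₀) - X (i₀, q.2) * C (b q.1) :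
        MvPolynomial (Fin n × Fin a) ℂ)
      simpa using this)
  convert h using 1
  ext ξ
  rw [mem_lineS_iff hi]
  simp only [Set.mem_ofPred_eq, Finset.mem_univ, true_imp_iff, Prod.forall, sub_eq_zero]

end W

end MPb07157
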