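import Pool.Agent.Lib.MP_b07157_agW.WDefs

/-!
# Arcs which are congruent to a multiple of a point
-/

noncomputable section

namespace MPb07157

open MvPolynomial

namespace W

variable {n : ℕ}

/-- The arcs `x ≡ c(t) b mod t^(a+1)`, `c ∈ Γ`, form a constructible set.

Proof.  With `b i₀ ≠ 0` it is the intersection of `lineS (a + 1) b` (`isConstr_lineS`) and the
preimage of `Γ` under the polynomial map `ξ ↦ (k ↦ ξ (i₀, k) / b i₀)` (`IsConstr.preimage`). -/
theorem isConstr_mulB {a : ℕ} {b : Fin n → ℂ} (hb : b ≠ 0) {Γ : Set (Fin a → ℂ)}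
    (hΓ : IsConstr Γ) : IsConstr {ξ : Fin n × Fin a → ℂ | ∃ c ∈ Γ, ξ = mulB c b} := by
  obtain ⟨i₀, hi⟩ := Function.ne_iff.1 hb
  simp only [Pi.zero_apply] at hi
  have h1 := (isConstr_lineS a hb).inter (hΓ.preimage
    (fun k : Fin a => (X (i₀, k) * C (b i₀)⁻¹ : MvPolynomial (Fin n × Fin a) ℂ)))
  have h2 : {ξ : Fin n × Fin a → ℂ | ∃ c ∈ Γ, ξ = mulB c b} = lineS a b ∩
      polyMap (fun k : Fin a => (X (i₀, k) * C (b i₀)⁻¹ : MvPolynomial (Fin n × Fin a) ℂ)) ⁻¹'
        Γ := by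
    have key : ∀ c : Fin a → ℂ, polyMap (fun k : Fin a =>
        (X (i₀, k) * C (b i₀)⁻¹ : MvPolynomial (Fin n × Fin a) ℂ)) (mulB c b) = c := by
      intro c
      funext k
      simp only [polyMap, map_mul, eval_X, eval_C, mulB]
      rw [mul_assoc, mul_inv_cancel₀ hi, mul_one]
    ext ξ
    constructor
    · rintro ⟨c, hc, rfl⟩
      refine ⟨⟨c, rfl⟩, ?_⟩
      rw [Set.mem_preimage, key]
      exact hc
    · rintro ⟨⟨c, rfl⟩, h3⟩
      rw [Set.mem_preimage, key] at h3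
      exact ⟨c, h3, rfl⟩
  rw [h2]
  exact h1

/-! ### Jets and multiplication by a unit -/

theorem aeval_mul_of_homog' {R : Type} [CommRing R] [Algebra ℂ R] {f : MvPolynomial (Fin n) ℂ}
    {d : ℕ} (hf : f.IsHomogeneous d) (c : R) (α : Fin n → R) :
    aeval (fun i => c * α i) f = c ^ d * aeval α f := by
  rw [aeval_def, aeval_def, eval₂_eq', eval₂_eq', Finset.mul_sum]
  refine Finset.sum_congr rfl fun v hv => ?_
  have h1 : ∑ i, v i = d := by
    have := hf (mem_support_iff.1 hv)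
    rw [← this]
    simp [Finsupp.weight_apply, Finsupp.sum_fintype]
  simp only [mul_pow, Finset.prod_mul_distrib]
  rw [Finset.prod_pow_eq_pow_sum, h1]
  ring

/-- The truncations of two arcs agree iff the arcs are congruent. -/
theorem tr_eq_iff {N : ℕ} {x y : Fin n → PowerSeries ℂ} :
    tr N x = tr N y ↔ ∀ i, (PowerSeries.X : PowerSeries ℂ) ^ N ∣ x i - y i := by
  refine ⟨fun h i => ?_, tr_congr le_rfl⟩
  rw [PowerSeries.X_pow_dvd_iff]
  intro k hk
  have h1 := congrFun h (i, ⟨k, hk⟩)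
  rw [map_sub, sub_eq_zero]
  exact h1

theorem tr_arc_self {N : ℕ} (γ : Fin n × Fin N → ℂ) : tr N (arc γ) = γ := by
  rw [tr_arc le_rfl]
  rfl

theorem X_pow_dvd_arc_tr {N : ℕ} (x : Fin n → PowerSeries ℂ) (i : Fin n) :
    (PowerSeries.X : PowerSeries ℂ) ^ N ∣ arc (tr N x) i - x i :=
  tr_eq_iff.1 (tr_arc_self (tr N x)) i

theorem tr_le {a N : ℕ} (h : a ≤ N) {x y : Fin n → PowerSeries ℂ} (hxy : tr N x = tr N y) :
    tr a x = tr a y :=
  tr_congr h (tr_eq_iff.1 hxy)

theorem tr_arc_tr {a N : ℕ} (h : a ≤ N) (x : Fin n → PowerSeries ℂ) :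
    tr a (arc (tr N x)) = tr a x :=
  tr_congr h (X_pow_dvd_arc_tr x)

/-- The jet of an arc lies in the cylinder iff the arc does. -/
theorem tr_mem_cyl {f : MvPolynomial (Fin n) ℂ} {a N m : ℕ} {S : Set (Fin n × Fin a → ℂ)}
    (ha : a ≤ N) (hm : m < N) (x : Fin n → PowerSeries ℂ) :
    tr N x ∈ cyl f a S N m ↔ (aeval x f : PowerSeries ℂ).order = m ∧ tr a x ∈ S := by
  simp only [cyl, arcs, Set.mem_ofPred_eq]
  rw [order_congr hm (aeval_congr_X_pow N f _ _ fun i => X_pow_dvd_arc_tr x i), tr_arc_tr ha]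

/-- The polynomial `c(t)`. -/
def cps {A : ℕ} (c : Fin A → ℂ) : PowerSeries ℂ :=
  PowerSeries.mk fun k => if h : k < A then c ⟨k, h⟩ else 0

theorem coeff_cps {A : ℕ} (c : Fin A → ℂ) (k : ℕ) :
    PowerSeries.coeff k (cps c) = if h : k < A then c ⟨k, h⟩ else 0 := PowerSeries.coeff_mk _ _

theorem isUnit_cps {a : ℕ} {c : Fin (a + 1) → ℂ} (h : c 0 ≠ 0) : IsUnit (cps c) := by
  rw [PowerSeries.isUnit_iff_constantCoeff, ← PowerSeries.coeff_zero_eq_constantCoeff_apply,
    coeff_cps, dif_pos (Nat.succ_pos a)]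
  exact isUnit_iff_ne_zero.2 h

theorem mulB_eq_tr {A : ℕ} (c : Fin A → ℂ) (b : Fin n → ℂ) :
    mulB c b = tr A (fun i => cps c * PowerSeries.C (b i)) := by
  funext q
  simp only [mulB, tr, PowerSeries.coeff_mul_C, coeff_cps]
  rw [dif_pos q.2.2]

theorem mulB_single {a : ℕ} (b : Fin n → ℂ) :
    mulB (Pi.single 0 1 : Fin (a + 1) → ℂ) b = tr (a + 1) (fun i => PowerSeries.C (b i)) := by
  funext q
  simp only [mulB, tr, PowerSeries.coeff_C, Pi.single_apply]
  by_cases h : q.2 = 0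
  · rw [if_pos h, h, one_mul, Fin.val_zero, if_pos rfl]
  · rw [if_neg h, zero_mul, if_neg]
    intro h1
    exact h (Fin.ext h1)

theorem mulB_inj {A : ℕ} {b : Fin n → ℂ} (hb : b ≠ 0) {c c' : Fin A → ℂ}
    (h : mulB c b = mulB c' b) : c = c' := by
  obtain ⟨i₀, hi⟩ := Function.ne_iff.1 hb
  simp only [Pi.zero_apply] at hi
  funext k
  have h1 : c k * b i₀ = c' k * b i₀ := congrFun h (i₀, k)
  exact mul_right_cancel₀ hi h1

/-- Multiplication of congruent arcs by a series. -/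
theorem tr_mul {N : ℕ} {x y : Fin n → PowerSeries ℂ} (u : PowerSeries ℂ) (h : tr N x = tr N y) :
    tr N (fun i => u * x i) = tr N (fun i => u * y i) := by
  rw [tr_eq_iff] at h ⊢
  intro i
  show _ ∣ u * x i - u * y i
  rw [← mul_sub]
  exact (h i).mul_left u

theorem order_unit_mul {f : MvPolynomial (Fin n) ℂ} {d : ℕ} (hf : f.IsHomogeneous d)
    {u : PowerSeries ℂ} (hu : IsUnit u) (x : Fin n → PowerSeries ℂ) :
    (aeval (fun i => u * x i) f : PowerSeries ℂ).order = (aeval x f : PowerSeries ℂ).order := by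
  rw [aeval_mul_of_homog' hf, PowerSeries.order_mul,
    PowerSeries.order_zero_of_unit (hu.pow d), zero_add]

/-- The multiplication `(c, γ) ↦ c γ` on jets. -/
def mulPoly (n A N : ℕ) (q : Fin n × Fin N) : MvPolynomial (Fin A ⊕ (Fin n × Fin N)) ℂ :=
  ∑ p ∈ Finset.HasAntidiagonal.antidiagonal (q.2 : ℕ),
    (if h : p.1 < A then X (Sum.inl ⟨p.1, h⟩) else 0) *
      (if h : p.2 < N then X (Sum.inr (q.1, ⟨p.2, h⟩)) else 0)

theorem polyMap_mulPoly {A N : ℕ} (x : Fin A ⊕ (Fin n × Fin N) → ℂ) :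
    polyMap (mulPoly n A N) x =
      tr N (fun i => cps (fun k => x (Sum.inl k)) * arc (fun q => x (Sum.inr q)) i) := by
  funext q
  simp only [polyMap, mulPoly, tr, PowerSeries.coeff_mul, map_sum, map_mul]
  refine Finset.sum_congr rfl fun p _ => ?_
  rw [coeff_cps, coeff_arc]
  congr 1
  · split_ifs with h
    · rw [eval_X]
    · rw [map_zero]
  · split_ifs with h
    · rw [eval_X]
    · rw [map_zero]

/-- The multiplication of jets is bijective. -/
theorem cls_mulB {f : MvPolynomial (Fin n) ℂ} {d : ℕ} (hf : f.IsHomogeneous d) {a : ℕ}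
    {b : Fin n → ℂ} (hb : b ≠ 0) {Γ : Set (Fin (a + 1) → ℂ)} (hΓ : IsConstr Γ)
    (h0 : ∀ c ∈ Γ, c 0 ≠ 0) {N m : ℕ} (ha : a + 1 ≤ N) (hm : m < N) :
    cls (cyl f (a + 1) {ξ | ∃ c ∈ Γ, ξ = mulB c b} N m) =
      cls Γ * cls (cyl f (a + 1) {mulB (Pi.single 0 1) b} N m) := by
  have hs : IsConstr ({mulB (Pi.single 0 1) b} : Set (Fin n × Fin (a + 1) → ℂ)) := by
    have h := isConstr_forall_mem (σ := Fin n × Fin (a + 1)) Finset.univ
      (fun (q : Fin n × Fin (a + 1)) ξ => ξ q = mulB (Pi.single 0 1) b q)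
      (fun q _ => by
        have := isConstr_eq_zero (X q - C (mulB (Pi.single 0 1) b q) :
          MvPolynomial (Fin n × Fin (a + 1)) ℂ)
        simpa [sub_eq_zero] using this)
    have h2 : ({mulB (Pi.single 0 1) b} : Set (Fin n × Fin (a + 1) → ℂ)) =
        {ξ | ∀ q ∈ Finset.univ, ξ q = mulB (Pi.single 0 1) b q} := by
      ext ξ
      simp only [Set.mem_singleton_iff, Set.mem_ofPred_eq, Finset.mem_univ, true_imp_iff,
        funext_iff]
    rw [h2]
    exact h
  have hS := isConstr_cyl f hs ha m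
  rw [← cls_prodSum hΓ hS]
  symm
  refine cls_bijOn (isConstr_prodSum hΓ hS) (isConstr_cyl f (isConstr_mulB hb hΓ) ha m)
    (mulPoly n (a + 1) N) ⟨?_, ?_, ?_⟩
  · rintro x ⟨h1, h2, h3⟩
    have h1' : (fun k => x (Sum.inl k)) ∈ Γ := h1
    have h2' : (aeval (arc (fun q => x (Sum.inr q))) f : PowerSeries ℂ).order = m := h2
    have h3' : tr (a + 1) (arc (fun q => x (Sum.inr q))) = mulB (Pi.single 0 1) b := h3
    rw [polyMap_mulPoly, tr_mem_cyl ha hm, order_unit_mul hf (isUnit_cps (h0 _ h1'))]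
    refine ⟨h2', _, h1', ?_⟩
    rw [mulB_single] at h3'
    rw [mulB_eq_tr]
    exact tr_mul _ h3'
  · rintro x ⟨h1, -, h3⟩ y ⟨h1', -, h3'⟩ h
    rw [polyMap_mulPoly, polyMap_mulPoly] at h
    have g1 : (fun k => x (Sum.inl k)) ∈ Γ := h1
    have e3 : tr (a + 1) (arc (fun q => x (Sum.inr q))) = mulB (Pi.single 0 1) b := h3
    have e3' : tr (a + 1) (arc (fun q => y (Sum.inr q))) = mulB (Pi.single 0 1) b := h3'
    rw [mulB_single] at e3 e3'
    have h4 := tr_le ha h
    rw [tr_mul (cps (fun k => x (Sum.inl k))) e3, tr_mul (cps (fun k => y (Sum.inl k))) e3',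
      ← mulB_eq_tr, ← mulB_eq_tr] at h4
    have h5 := mulB_inj hb h4
    rw [← h5] at h
    obtain ⟨u, hu⟩ := (isUnit_cps (h0 _ g1)).exists_left_inv
    have h6 := tr_mul u h
    simp only [← mul_assoc, hu, one_mul] at h6
    rw [tr_arc_self, tr_arc_self] at h6
    funext k
    rcases k with k | q
    · exact congrFun h5 k
    · exact congrFun h6 q
  · rintro δ ⟨h1, c, hc, h2⟩
    obtain ⟨u, hu⟩ := (isUnit_cps (h0 c hc)).exists_left_inv
    have hu' : IsUnit u := IsUnit.of_mul_eq_one _ hu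
    have hu2 : cps c * u = 1 := by rw [mul_comm, hu]
    have h1' : (aeval (arc δ) f : PowerSeries ℂ).order = m := h1
    have hγ : tr N (fun i => u * arc δ i) ∈
        cyl f (a + 1) {mulB (Pi.single 0 1 : Fin (a + 1) → ℂ) b} N m := by
      rw [tr_mem_cyl ha hm, order_unit_mul hf hu']
      refine ⟨h1', ?_⟩
      rw [mulB_eq_tr] at h2
      have h3 := tr_mul u h2
      simp only [← mul_assoc, hu, one_mul] at h3
      rw [Set.mem_singleton_iff, mulB_single]
      exact h3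
    refine ⟨Sum.elim c (tr N (fun i => u * arc δ i)), ⟨hc, hγ⟩, ?_⟩
    rw [polyMap_mulPoly]
    simp only [Sum.elim_inl, Sum.elim_inr]
    have h3 := tr_mul (cps c) (tr_arc_self (tr N (fun i => u * arc δ i)))
    refine h3.trans ?_
    simp only [← mul_assoc, hu2, one_mul]
    exact tr_arc_self δ

/-- The arcs `x ≡ c(t) b mod t^(a+1)`, `c ∈ Γ`, are the arcs `c(t) y(t)` with `y ≡ b mod t^(a+1)`.

Proof.  Compare the coefficients of `T^m` at the level `N = a + m + 2` (`coeff_ser`). The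
polynomial map `Γ × cyl f (a + 1) {mulB (Pi.single 0 1) b} N m → cyl f (a + 1) {ξ | ∃ c ∈ Γ, ξ = mulB c b} N m`,
`(c, γ) ↦ δ`, `δ (i, k) = ∑_{j + l = k} c j * γ (i, l)` (the jet of `c(t) * arc γ`), is bijective:
the `(a + 1)`-jet of `δ` is `mulB c b`, which gives `c` (`b ≠ 0`), and then `γ` is the jet of
`c(t)⁻¹ * arc δ` (`c 0 ≠ 0`); `f(c(t) x) = c(t)^d f(x)` (see `aeval_mul_of_homog` in `agH/HZ.lean`;
copy it, do not import HZ, it is slow to build) has the same order as `f(x)`, and orders are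
compared modulo `t^N` (`order_congr`, `aeval_congr_X_pow`).  Then `cls_bijOn`, `cls_prodSum`.  Note
that `mulB (Pi.single 0 1) b` is the jet of the constant arc `b`. -/
theorem ser_line {f : MvPolynomial (Fin n) ℂ} {d : ℕ} (hf : f.IsHomogeneous d) {a : ℕ}
    {b : Fin n → ℂ} (hb : b ≠ 0) {Γ : Set (Fin (a + 1) → ℂ)} (hΓ : IsConstr Γ)
    (h0 : ∀ c ∈ Γ, c 0 ≠ 0) :
    ser f (a + 1) {ξ | ∃ c ∈ Γ, ξ = mulB c b} =
      PowerSeries.C (clsM Γ) * ser f (a + 1) {mulB (Pi.single 0 1) b} := by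
  have hs : IsConstr ({mulB (Pi.single 0 1) b} : Set (Fin n × Fin (a + 1) → ℂ)) := by
    have h := isConstr_mulB (a := a + 1) hb (Γ := {Pi.single 0 1}) (by
      have h := isConstr_forall_mem (σ := Fin (a + 1)) Finset.univ
        (fun (q : Fin (a + 1)) (c : Fin (a + 1) → ℂ) => c q = (Pi.single 0 1 : Fin (a + 1) → ℂ) q)
        (fun q _ => by
          have := isConstr_eq_zero (X q - C ((Pi.single 0 1 : Fin (a + 1) → ℂ) q) :
            MvPolynomial (Fin (a + 1)) ℂ)
          simpa [sub_eq_zero] using this)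
      have h2 : ({Pi.single 0 1} : Set (Fin (a + 1) → ℂ)) =
          {c | ∀ q ∈ Finset.univ, c q = (Pi.single 0 1 : Fin (a + 1) → ℂ) q} := by
        ext c
        simp only [Set.mem_singleton_iff, Set.mem_ofPred_eq, Finset.mem_univ, true_imp_iff,
          funext_iff]
      rw [h2]
      exact h)
    have h3 : ({mulB (Pi.single 0 1) b} : Set (Fin n × Fin (a + 1) → ℂ)) =
        {ξ | ∃ c ∈ ({Pi.single 0 1} : Set (Fin (a + 1) → ℂ)), ξ = mulB c b} := by
      ext ξ
      simp only [Set.mem_singleton_iff, Set.mem_ofPred_eq, exists_eq_left]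
    rw [h3]
    exact h
  ext m
  rw [PowerSeries.coeff_C_mul,
    coeff_ser f (isConstr_mulB hb hΓ) (N := a + m + 2) (by omega) (by omega),
    coeff_ser f hs (N := a + m + 2) (by omega) (by omega)]
  unfold nrm
  rw [clsM_mul_eq (cls_mulB hf hb hΓ h0 (N := a + m + 2) (m := m) (by omega) (by omega))]
  ring

end W

end MPb07157
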