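import Pool.Agent.Lib.MP_b07157_agW.WDefs
import Mathlib.RingTheory.Nullstellensatz

/-!
# Arcs which are not tangent to the singular lines
-/

noncomputable section

namespace MPb07157

open MvPolynomial

namespace W

variable {n : ℕ}

/-- The products of minors of `x` and `b`. -/
def PP {B : Finset (Fin n → ℂ)} (q : Fin n × ({b // b ∈ B} → Fin n × Fin n)) :
    MvPolynomial (Fin n) ℂ :=
  X q.1 * ∏ b : {b // b ∈ B},
    (X (q.2 b).1 * C (b.1 (q.2 b).2) - X (q.2 b).2 * C (b.1 (q.2 b).1))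

theorem PP_mem {f : MvPolynomial (Fin n) ℂ} {B : Finset (Fin n → ℂ)}
    (hB : ∀ p, p ≠ 0 → (∀ j, eval p (pderiv j f) = 0) → ∃ b ∈ B, ∃ c : ℂ, p = c • b)
    (q : Fin n × ({b // b ∈ B} → Fin n × Fin n)) :
    PP q ∈ (Ideal.span (Set.range fun j => pderiv j f)).radical := by
  rw [← vanishingIdeal_zeroLocus_eq_radical (K := ℂ), mem_vanishingIdeal_iff]
  intro p hp
  rw [zeroLocus_span] at hp
  have hp' : ∀ j, eval p (pderiv j f) = 0 := fun j => by
    have := hp (pderiv j f) ⟨j, rfl⟩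
    rwa [aeval_eq_eval] at this
  rw [aeval_eq_eval]
  unfold PP
  rw [map_mul, eval_X]
  by_cases h0 : p = 0
  · rw [h0, Pi.zero_apply, zero_mul]
  · obtain ⟨b, hb, c, hc⟩ := hB p h0 hp'
    refine mul_eq_zero_of_right _ ?_
    rw [map_prod]
    refine Finset.prod_eq_zero (Finset.mem_univ ⟨b, hb⟩) ?_
    rw [map_sub, map_mul, map_mul, eval_X, eval_X, eval_C, eval_C, hc, Pi.smul_apply,
      Pi.smul_apply, smul_eq_mul, smul_eq_mul]
    ring

theorem exists_boundP {f : MvPolynomial (Fin n) ℂ} {B : Finset (Fin n → ℂ)}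
    (hB : ∀ p, p ≠ 0 → (∀ j, eval p (pderiv j f) = 0) → ∃ b ∈ B, ∃ c : ℂ, p = c • b) (a : ℕ)
    (q : Fin n × ({b // b ∈ B} → Fin n × Fin n)) :
    ∃ E : ℕ, ∀ x : Fin n → PowerSeries ℂ, (x q.1).order ≤ 0 →
      (∀ b : {b // b ∈ B}, (x (q.2 b).1 * PowerSeries.C (b.1 (q.2 b).2) -
        x (q.2 b).2 * PowerSeries.C (b.1 (q.2 b).1)).order ≤ (a : ℕ∞)) →
      ∃ j, (aeval x (pderiv j f) : PowerSeries ℂ).order ≤ (E : ℕ∞) := by
  obtain ⟨M, hM⟩ := PP_mem hB q
  refine ⟨M * (B.card * a), fun x hx hxb => ?_⟩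
  by_contra hcon
  push Not at hcon
  have h1 : (aeval x (PP q) : PowerSeries ℂ).order ≤ ((B.card * a : ℕ) : ℕ∞) := by
    unfold PP
    rw [map_mul, aeval_X, PowerSeries.order_mul, map_prod, PowerSeries.order_prod]
    calc _ ≤ (0 : ℕ∞) + ∑ b : {b // b ∈ B}, (a : ℕ∞) := by
          refine add_le_add hx (Finset.sum_le_sum fun b _ => ?_)
          rw [map_sub, map_mul, map_mul, aeval_X, aeval_X, aeval_C, aeval_C]
          exact hxb b
      _ = _ := by
          rw [zero_add, Finset.sum_const, Finset.card_univ, Fintype.card_coe, nsmul_eq_mul]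
          push_cast
          rfl
  have h2 : ((aeval x (PP q) : PowerSeries ℂ) ^ M).order ≤ ((M * (B.card * a) : ℕ) : ℕ∞) := by
    rw [PowerSeries.order_pow, nsmul_eq_mul, Nat.cast_mul]
    gcongr
  have h3 : Ideal.span (Set.range fun j => pderiv j f) ≤
      Ideal.comap (aeval x) (Ideal.span {(PowerSeries.X : PowerSeries ℂ) ^
        (M * (B.card * a) + 1)}) := by
    rw [Ideal.span_le]
    rintro _ ⟨j, rfl⟩
    rw [SetLike.mem_coe, Ideal.mem_comap, Ideal.mem_span_singleton, PowerSeries.X_pow_dvd_iff]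
    intro m hm
    refine PowerSeries.coeff_of_lt_order m (lt_of_le_of_lt ?_ (hcon j))
    exact_mod_cast Nat.lt_succ_iff.1 hm
  have h4 := h3 hM
  rw [Ideal.mem_comap, map_pow, Ideal.mem_span_singleton, PowerSeries.X_pow_dvd_iff] at h4
  have h5 := PowerSeries.nat_le_order _ _ h4
  have h6 := h5.trans h2
  have h7 : M * (B.card * a) + 1 ≤ M * (B.card * a) := by exact_mod_cast h6
  omega

/-- The singular points of `f` outside the origin lie on the lines through the points `b ∈ B`. Then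
the gradient of `f` has bounded order along the arcs `x(t)` with `x(0) ≠ 0` which are not congruent
to an arc `c(t) b`, `b ∈ B`, modulo `t^a`.

Proof.  For `i₀ : Fin n` and `τ : B → Fin n × Fin n` let
`P = X_{i₀} * ∏_{b ∈ B} (X_i b_k - X_k b_i)`, `(i, k) = τ b`. `P` vanishes at all points where the
gradient of `f` vanishes (at the origin because of the factor `X_{i₀}`; at `c • b` because of the
factor of `b`). By the Nullstellensatz (`MvPolynomial.vanishingIdeal_zeroLocus_eq_radical`) some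
power `P^M` is in the ideal generated by the `∂_j f`; take one `M` for all the (finitely many) pairs
`(i₀, τ)` and `E = M * (a * B.card) + a` (or anything large).  Given `x`, let `x_{i₀}(0) ≠ 0`; for
`b ∈ B` there is `(i, k)` with `ord (x_i b_k - x_k b_i) < a` (otherwise
`tr a x ∈ lineS a b` by `mem_lineS_iff`, as `b ≠ 0`); this defines `τ` and
`ord P^M (x) ≤ M * (B.card * a)`.  If all `∂_j f (x)` had order `> E` then `P^M (x)` would have order
`> E`. -/
theorem exists_bound {f : MvPolynomial (Fin n) ℂ} (B : Finset (Fin n → ℂ))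
    (hB0 : ∀ b ∈ B, b ≠ 0)
    (hB : ∀ p, p ≠ 0 → (∀ j, eval p (pderiv j f) = 0) → ∃ b ∈ B, ∃ c : ℂ, p = c • b) (a : ℕ) :
    ∃ E : ℕ, ∀ x : Fin n → PowerSeries ℂ, (∃ i, PowerSeries.coeff 0 (x i) ≠ 0) →
      (∀ b ∈ B, tr a x ∉ lineS a b) →
      ∃ j, (aeval x (pderiv j f) : PowerSeries ℂ).order ≤ (E : ℕ∞) := by
  classical
  choose E hE using exists_boundP hB a
  refine ⟨Finset.univ.sup E, fun x hx hxb => ?_⟩
  obtain ⟨i₀, hi₀⟩ := hx
  have h1 : ∀ b : {b // b ∈ B}, ∃ t : Fin n × Fin n, (x t.1 * PowerSeries.C (b.1 t.2) -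
      x t.2 * PowerSeries.C (b.1 t.1)).order ≤ (a : ℕ∞) := by
    intro b
    obtain ⟨i, hi⟩ := Function.ne_iff.1 (hB0 b.1 b.2)
    have h2 := hxb b.1 b.2
    rw [mem_lineS_iff hi] at h2
    push Not at h2
    obtain ⟨l, k, h3⟩ := h2
    refine ⟨(l, i), (PowerSeries.order_le (k : ℕ) ?_).trans ?_⟩
    · rw [map_sub, PowerSeries.coeff_mul_C, PowerSeries.coeff_mul_C, sub_ne_zero]
      exact h3
    · exact_mod_cast k.2.le
  choose τ hτ using h1
  obtain ⟨j, hj⟩ := hE (i₀, τ) x (by exact_mod_cast PowerSeries.order_le 0 hi₀) hτ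
  exact ⟨j, hj.trans (by exact_mod_cast Finset.le_sup (Finset.mem_univ _))⟩

end W

end MPb07157
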