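import Pool.Agent.Lib.MP_b07157_agW.WDefs

/-!
# Weighted homogeneous polynomials: division of the arcs by powers of `t`
-/

noncomputable section

namespace MPb07157

open MvPolynomial

namespace W

variable {n : ℕ}

/-- Multiplication of the `i`-th coordinate of an arc by `t^(w i)`. -/
def upw {a : ℕ} (w : Fin n → ℕ) (ξ : Fin n × Fin a → ℂ) : Fin n × Fin a → ℂ :=
  fun q => if w q.1 ≤ (q.2 : ℕ) then
    ξ (q.1, ⟨(q.2 : ℕ) - w q.1, (Nat.sub_le _ _).trans_lt q.2.2⟩) else 0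

namespace WWaux

theorem upw_apply {a : ℕ} (w : Fin n → ℕ) (ξ : Fin n × Fin a → ℂ) {i : Fin n} {j : Fin a}
    (h : w i ≤ (j : ℕ)) :
    upw w ξ (i, j) = ξ (i, ⟨(j : ℕ) - w i, (Nat.sub_le _ _).trans_lt j.2⟩) := if_pos h

theorem upw_apply_lt {a : ℕ} (w : Fin n → ℕ) (ξ : Fin n × Fin a → ℂ) {i : Fin n} {j : Fin a}
    (h : (j : ℕ) < w i) : upw w ξ (i, j) = 0 := if_neg (not_le.2 h)

/-- The components of `upw`. -/
def upP (a : ℕ) (w : Fin n → ℕ) (q : Fin n × Fin a) : MvPolynomial (Fin n × Fin a) ℂ :=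
  if w q.1 ≤ (q.2 : ℕ) then X (q.1, ⟨(q.2 : ℕ) - w q.1, (Nat.sub_le _ _).trans_lt q.2.2⟩) else 0

theorem polyMap_upP {a : ℕ} (w : Fin n → ℕ) (ξ : Fin n × Fin a → ℂ) :
    polyMap (upP a w) ξ = upw w ξ := by
  funext q
  unfold polyMap upP upw
  split_ifs
  · rw [eval_X]
  · rw [map_zero]

theorem isConstr_upw {a : ℕ} (w : Fin n → ℕ) {S : Set (Fin n × Fin a → ℂ)} (hS : IsConstr S) :
    IsConstr {ξ | upw w ξ ∈ S} := by
  have h := hS.preimage (upP a w)
  have e : polyMap (upP a w) ⁻¹' S = {ξ | upw w ξ ∈ S} := by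
    ext ξ
    rw [Set.mem_preimage, polyMap_upP]
    rfl
  rwa [e] at h

theorem isConstr_low {a : ℕ} (w : Fin n → ℕ) {S : Set (Fin n × Fin a → ℂ)} (hS : IsConstr S) :
    IsConstr {ξ : Fin n × Fin a → ℂ |
      (∀ q : Fin n × Fin a, (q.2 : ℕ) < w q.1 → ξ q = 0) ∧ ξ ∈ S} := by
  refine isConstr_setOf_and ?_ hS
  have h := isConstr_forall_mem (σ := Fin n × Fin a) Finset.univ
    (fun (q : Fin n × Fin a) ξ => (q.2 : ℕ) < w q.1 → ξ q = 0)
    (fun q _ => isConstr_setOf_imp (isConstr_const _) (by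
      have := isConstr_eq_zero (X q : MvPolynomial (Fin n × Fin a) ℂ)
      simpa only [eval_X] using this))
  simpa only [Finset.mem_univ, true_imp_iff] using h

/-- Truncation commutes with the multiplication by `t^(w i)`. -/
theorem tr_upw {a N : ℕ} (h : a ≤ N) (w : Fin n → ℕ) (δ : Fin n × Fin N → ℂ) :
    tr a (arc (upw w δ)) = upw w (tr a (arc δ)) := by
  rw [tr_arc h, tr_arc h]
  rfl

theorem X_pow_dvd_upw {N : ℕ} (w : Fin n → ℕ) (δ : Fin n × Fin N → ℂ) (i : Fin n) :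
    (PowerSeries.X : PowerSeries ℂ) ^ N ∣
      arc (upw w δ) i - PowerSeries.X ^ w i * arc δ i := by
  rw [PowerSeries.X_pow_dvd_iff]
  intro k hk
  rw [map_sub, PowerSeries.coeff_X_pow_mul', coeff_arc, dif_pos hk, sub_eq_zero]
  split_ifs with h
  · rw [upw_apply w δ (j := ⟨k, hk⟩) h, coeff_arc, dif_pos ((Nat.sub_le _ _).trans_lt hk)]
  · exact upw_apply_lt w δ (j := ⟨k, hk⟩) (not_le.1 h)

theorem aeval_mul_weighted {f : MvPolynomial (Fin n) ℂ} {w : Fin n → ℕ} {D : ℕ}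
    (hf : f.IsWeightedHomogeneous w D) (c : PowerSeries ℂ) (α : Fin n → PowerSeries ℂ) :
    aeval (fun i => c ^ w i * α i) f = c ^ D * aeval α f := by
  rw [aeval_def, aeval_def, eval₂_eq', eval₂_eq', Finset.mul_sum]
  refine Finset.sum_congr rfl fun v hv => ?_
  have h1 : ∑ i, w i * v i = D := by
    have := hf (mem_support_iff.1 hv)
    rw [← this]
    simp [Finsupp.weight_apply, Finsupp.sum_fintype, mul_comm]
  simp only [mul_pow, Finset.prod_mul_distrib, ← pow_mul]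
  rw [Finset.prod_pow_eq_pow_sum, h1]
  ring

theorem order_X_pow_mul_iff' {d m : ℕ} (φ : PowerSeries ℂ) :
    ((PowerSeries.X : PowerSeries ℂ) ^ d * φ).order = (m : ℕ∞) ↔
      d ≤ m ∧ φ.order = ((m - d : ℕ) : ℕ∞) := by
  rw [PowerSeries.order_mul, PowerSeries.order_X_pow]
  induction φ.order using ENat.recTopCoe with
  | top =>
    constructor
    · intro h; exact absurd h (by simp)
    · rintro ⟨_, h⟩; exact absurd h.symm (ENat.natCast_ne_top _)
  | coe x =>
    constructor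
    · intro h
      have h' : d + x = m := by exact_mod_cast h
      refine ⟨by omega, ?_⟩
      have : x = m - d := by omega
      rw [this]
    · rintro ⟨h1, h2⟩
      have h' : x = m - d := by exact_mod_cast h2
      have : d + x = m := by omega
      exact_mod_cast this

theorem mem_arcs_upw {f : MvPolynomial (Fin n) ℂ} {w : Fin n → ℕ} {D : ℕ}
    (hf : f.IsWeightedHomogeneous w D) {N m : ℕ} (hm : m < N) (δ : Fin n × Fin N → ℂ) :
    upw w δ ∈ arcs f N m ↔ D ≤ m ∧ δ ∈ arcs f N (m - D) := by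
  simp only [arcs, Set.mem_ofPred_eq]
  rw [order_congr hm (aeval_congr_X_pow N f _ (fun i => PowerSeries.X ^ w i * arc δ i)
    fun i => X_pow_dvd_upw w δ i), aeval_mul_weighted hf, order_X_pow_mul_iff']

theorem eq_upw {N : ℕ} {w : Fin n → ℕ} (hw : ∀ i, w i ≤ N) {γ : Fin n × Fin N → ℂ}
    (h : ∀ q : Fin n × Fin N, (q.2 : ℕ) < w q.1 → γ q = 0)
    (z : (Σ i, Fin (w i)) → ℂ) {δ : Fin n × Fin N → ℂ}
    (hδ : ∀ i (j : Fin N), δ (i, j) = if h : (j : ℕ) + w i < N then γ (i, ⟨(j : ℕ) + w i, h⟩)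
      else z ⟨i, ⟨(j : ℕ) - (N - w i), by have := hw i; have := j.2; omega⟩⟩) :
    upw w δ = γ := by
  funext ⟨i, j⟩
  rcases Nat.lt_or_ge (j : ℕ) (w i) with h1 | h1
  · rw [upw_apply_lt w δ h1, h _ h1]
  · rw [upw_apply w δ h1, hδ, dif_pos (by simp only; have := j.2; omega)]
    congr 2
    exact Fin.ext (Nat.sub_add_cancel h1)

/-- The bijection of jets. -/
theorem cls_upw {f : MvPolynomial (Fin n) ℂ} {w : Fin n → ℕ} {D : ℕ}
    (hf : f.IsWeightedHomogeneous w D) {a : ℕ} (hw : ∀ i, w i ≤ a)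
    {S : Set (Fin n × Fin a → ℂ)} (hS : IsConstr S) {N m : ℕ} (ha : a ≤ N) (hm : m < N)
    (hD : D ≤ m) :
    cls (cyl f a {ξ | upw w ξ ∈ S} N (m - D)) =
      cls (cyl f a {ξ | (∀ q : Fin n × Fin a, (q.2 : ℕ) < w q.1 → ξ q = 0) ∧ ξ ∈ S} N m) *
        cls (Set.univ : Set ((Σ i, Fin (w i)) → ℂ)) := by
  have hw' : ∀ i, w i ≤ N := fun i => (hw i).trans ha
  have c1 := isConstr_cyl f (isConstr_low w hS) ha m
  rw [← cls_prodSum c1 IsConstr.univ]
  have key : ∀ x : Fin n × Fin N → ℂ, polyMap (Sum.elim (upP N w)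
      fun p : Σ i, Fin (w i) => (X (p.1, ⟨N - w p.1 + p.2, by
        have := hw' p.1
        have := p.2.2
        omega⟩) : MvPolynomial (Fin n × Fin N) ℂ)) x =
      Sum.elim (upw w x) fun p : Σ i, Fin (w i) => x (p.1, ⟨N - w p.1 + p.2, by
        have := hw' p.1
        have := p.2.2
        omega⟩) := by
    intro x
    rw [← polyMap_upP w x]
    funext p
    rcases p with p | p
    · rfl
    · simp [polyMap]
  refine cls_bijOn (isConstr_cyl f (isConstr_upw w hS) ha (m - D))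
    (isConstr_prodSum c1 IsConstr.univ) (Sum.elim (upP N w)
      fun p : Σ i, Fin (w i) => X (p.1, ⟨N - w p.1 + p.2, by
        have := hw' p.1
        have := p.2.2
        omega⟩)) ⟨?_, ?_, ?_⟩
  · rintro δ ⟨h1, h2⟩
    rw [key]
    refine ⟨⟨?_, ?_⟩, Set.mem_univ _⟩
    · exact (mem_arcs_upw hf hm δ).2 ⟨hD, h1⟩
    · have e1 : tr a (arc (fun i => Sum.elim (upw w δ)
          (fun p : Σ i, Fin (w i) => δ (p.1, ⟨N - w p.1 + p.2, by
            have := hw' p.1
            have := p.2.2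
            omega⟩)) (Sum.inl i))) = upw w (tr a (arc δ)) := tr_upw ha w δ
      rw [e1]
      exact ⟨fun q hq => upw_apply_lt w _ hq, h2⟩
  · rintro x - y - h
    rw [key, key] at h
    funext ⟨i, j⟩
    rcases Nat.lt_or_ge ((j : ℕ) + w i) N with h1 | h1
    · have h2 : upw w x (i, ⟨(j : ℕ) + w i, h1⟩) = upw w y (i, ⟨(j : ℕ) + w i, h1⟩) :=
        congrFun h (Sum.inl (i, ⟨(j : ℕ) + w i, h1⟩))
      rw [upw_apply w x (j := ⟨(j : ℕ) + w i, h1⟩) (Nat.le_add_left _ _),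
        upw_apply w y (j := ⟨(j : ℕ) + w i, h1⟩) (Nat.le_add_left _ _)] at h2
      have e1 : (⟨(j : ℕ) + w i - w i, by have := j.2; omega⟩ : Fin N) = j :=
        Fin.ext (Nat.add_sub_cancel _ _)
      rw [e1] at h2
      exact h2
    · have hi := hw' i
      have hj := j.2
      have h2 := congrFun h (Sum.inr ⟨i, ⟨(j : ℕ) - (N - w i), by omega⟩⟩)
      simp only [Sum.elim_inr] at h2
      have e1 : (⟨N - w i + ((j : ℕ) - (N - w i)), by omega⟩ : Fin N) = j :=
        Fin.ext (by simp only; omega)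
      rw [e1] at h2
      exact h2
  · rintro y ⟨⟨h1, h2⟩, -⟩
    set γ : Fin n × Fin N → ℂ := fun i => y (Sum.inl i) with hγ
    set z : (Σ i, Fin (w i)) → ℂ := fun p => y (Sum.inr p) with hz
    obtain ⟨δ, hδ⟩ : ∃ δ : Fin n × Fin N → ℂ, ∀ i (j : Fin N), δ (i, j) =
        if h : (j : ℕ) + w i < N then γ (i, ⟨(j : ℕ) + w i, h⟩)
        else z ⟨i, ⟨(j : ℕ) - (N - w i), by have := hw' i; have := j.2; omega⟩⟩ :=
      ⟨fun q => if h : (q.2 : ℕ) + w q.1 < N then γ (q.1, ⟨(q.2 : ℕ) + w q.1, h⟩)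
        else z ⟨q.1, ⟨(q.2 : ℕ) - (N - w q.1), by
          have := hw' q.1
          have := q.2.2
          omega⟩⟩, fun i j => rfl⟩
    have h3 : ∀ q : Fin n × Fin N, (q.2 : ℕ) < w q.1 → γ q = 0 := by
      rintro ⟨i, j⟩ hq
      have h4 := h2.1 (i, ⟨j, hq.trans_le (hw i)⟩) hq
      rw [tr_arc ha] at h4
      exact h4
    have h5 : upw w δ = γ := eq_upw hw' h3 z hδ
    refine ⟨δ, ⟨?_, ?_⟩, ?_⟩
    · have h6 : upw w δ ∈ arcs f N m := by
        rw [h5]
        exact h1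
      exact ((mem_arcs_upw hf hm δ).1 h6).2
    · have h6 := h2.2
      rw [← h5, tr_upw ha w δ] at h6
      exact h6
    · rw [key, h5]
      funext p
      rcases p with p | ⟨i, l⟩
      · rfl
      · simp only [Sum.elim_inr]
        have hi := hw' i
        have hl := l.2
        rw [hδ, dif_neg (by simp only; omega)]
        simp only [hz]
        congr 2
        refine Sigma.ext rfl (heq_of_eq (Fin.ext ?_))
        simp only
        omega

theorem unit_cancel (u : Motˣ) (x c : Mot) :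
    x * c = ((u⁻¹ : Motˣ) : Mot) * (x * (c * ((u : Motˣ) : Mot))) := by
  have h : ((u⁻¹ : Motˣ) : Mot) * ((u : Motˣ) : Mot) = 1 := Units.inv_mul u
  linear_combination (-(x * c)) * h

end WWaux

open WWaux in
/-- The arcs `x` with `t^(w i) ∣ x_i` for all `i`: write `x_i = t^(w i) x'_i`, so that
`f(x) = t^D f(x')`.

Proof.  Compare the coefficients of `T^m`, computed (with `coeff_ser`) at a large level `N`, e.g.
`N = a + m + 1 + ∑ i, w i` (so `w i ≤ N`), for `x` and for `x'`.  The polynomial map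
`cyl f a {ξ | (∀ q, q.2 < w q.1 → ξ q = 0) ∧ ξ ∈ S} N m  ×  (Σ i, Fin (w i) → ℂ)  ⟶
  cyl f a {ξ | upw w ξ ∈ S} N (m - D)`,
`(γ, z) ↦ δ`, `δ (i, j) = γ (i, j + w i)` if `j + w i < N` and `δ (i, j) = z (i, j - (N - w i))`
otherwise, is bijective for `D ≤ m` (the missing `w i` last coefficients of `x'_i` are free), so the
class of the target is `L^(∑ w i)` times the class of the first factor of the source
(`cls_prodSum`, `cls_bijOn`, `cls_univ_eq`).  Indeed `arc γ i ≡ t^(w i) * arc δ i mod t^N`, so that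
`f(arc γ) ≡ t^D f(arc δ) mod t^N` (`aeval_congr_X_pow`, and `eval₂_eq'` with the weighted
homogeneity as in `aeval_mul_of_homog` of `agH/HZ.lean`), hence (`order_congr`, and
`order_X_pow_mul_iff` of `agH/HZ.lean`; copy what you need, do not import HZ, it is slow to build)
`ord f(arc γ) = m ↔ D ≤ m ∧ ord f(arc δ) = m - D`.  For `m < D` the first set is empty. -/
theorem ser_weights {f : MvPolynomial (Fin n) ℂ} {w : Fin n → ℕ} {D : ℕ}
    (hf : f.IsWeightedHomogeneous w D) {a : ℕ} (hw : ∀ i, w i ≤ a)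
    {S : Set (Fin n × Fin a → ℂ)} (hS : IsConstr S) :
    ser f a {ξ | (∀ q : Fin n × Fin a, (q.2 : ℕ) < w q.1 → ξ q = 0) ∧ ξ ∈ S} =
      PowerSeries.C (↑((LU ^ (∑ i, w i))⁻¹) : Mot) *
        (PowerSeries.X ^ D * ser f a {ξ | upw w ξ ∈ S}) := by
  ext m
  have hN : a ≤ a + m + 1 := by omega
  rw [PowerSeries.coeff_C_mul, PowerSeries.coeff_X_pow_mul',
    coeff_ser f (isConstr_low w hS) hN (show m < a + m + 1 by omega)]
  split_ifs with hD
  · rw [coeff_ser f (isConstr_upw w hS) hN (show m - D < a + m + 1 by omega)]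
    unfold nrm
    rw [clsM_mul_eq (cls_upw hf hw hS hN (show m < a + m + 1 by omega) hD), clsM_univ,
      Fintype.card_sigma]
    simp only [Fintype.card_fin]
    exact unit_cancel _ _ _
  · rw [mul_zero]
    have h1 : cyl f a {ξ | (∀ q : Fin n × Fin a, (q.2 : ℕ) < w q.1 → ξ q = 0) ∧ ξ ∈ S}
        (a + m + 1) m = ∅ := by
      rw [Set.eq_empty_iff_forall_notMem]
      rintro γ ⟨h1, h2, -⟩
      have h3 : ∀ q : Fin n × Fin (a + m + 1), (q.2 : ℕ) < w q.1 → γ q = 0 := by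
        rintro ⟨i, j⟩ hq
        have h4 := h2 (i, ⟨j, hq.trans_le (hw i)⟩) hq
        rw [tr_arc hN] at h4
        exact h4
      have hw' : ∀ i, w i ≤ a + m + 1 := fun i => (hw i).trans hN
      obtain ⟨δ, hδ⟩ : ∃ δ : Fin n × Fin (a + m + 1) → ℂ, ∀ i (j : Fin (a + m + 1)), δ (i, j) =
          if h : (j : ℕ) + w i < a + m + 1 then γ (i, ⟨(j : ℕ) + w i, h⟩)
          else (fun _ => 0 : (Σ i, Fin (w i)) → ℂ) ⟨i, ⟨(j : ℕ) - (a + m + 1 - w i), by
            have := hw' i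
            have := j.2
            omega⟩⟩ :=
        ⟨fun q => if h : (q.2 : ℕ) + w q.1 < a + m + 1 then γ (q.1, ⟨(q.2 : ℕ) + w q.1, h⟩)
          else 0, fun i j => rfl⟩
      have h5 : upw w δ = γ := eq_upw hw' h3 (fun _ => 0) hδ
      rw [← h5] at h1
      exact hD ((mem_arcs_upw hf (show m < a + m + 1 by omega) δ).1 h1).1
    unfold nrm clsM
    rw [h1, cls_empty, map_zero, mul_zero]

end W

end MPb07157
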