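import Pool.Agent.Lib.MP_b07157_agW.WW
import Pool.Agent.Lib.MP_b07157_agW.WB
import Pool.Agent.Lib.MP_b07157_agW.WN
import Pool.Agent.Lib.MP_b07157_agW.WL

/-!
# The zeta function of a homogeneous polynomial with several gradings
-/

noncomputable section

namespace MPb07157

open MvPolynomial

namespace W

variable {n : ℕ}

theorem isConstr_start (a : ℕ) (p : Fin n → ℂ) :
    IsConstr {ξ : Fin n × Fin (a + 1) → ℂ | (fun i => ξ (i, 0)) = p} := by
  have h := isConstr_forall_mem (σ := Fin n × Fin (a + 1)) Finset.univ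
    (fun (j : Fin n) ξ => ξ (j, 0) = p j)
    (fun j _ => by
      have := isConstr_eq_zero (X (j, 0) - C (p j) : MvPolynomial (Fin n × Fin (a + 1)) ℂ)
      simpa [sub_eq_zero] using this)
  convert h using 1
  ext x
  simp [funext_iff]

theorem isConstr_one (a : ℕ) : IsConstr {c : Fin (a + 1) → ℂ | c 0 = 1} := by
  have := isConstr_eq_zero (X 0 - C 1 : MvPolynomial (Fin (a + 1)) ℂ)
  simpa [sub_eq_zero] using this

theorem clsM_one (a : ℕ) :
    clsM {c : Fin (a + 1) → ℂ | c 0 = 1} = ((LU ^ a : Motˣ) : Mot) := by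
  have h1 : cls (Set.univ : Set (Fin a → ℂ)) = cls {c : Fin (a + 1) → ℂ | c 0 = 1} := by
    have hmap : ∀ x : Fin a → ℂ, polyMap (Fin.cons 1 X : Fin (a + 1) → MvPolynomial (Fin a) ℂ) x =
        Fin.cons 1 x := by
      intro x
      funext j
      refine Fin.cases ?_ (fun j => ?_) j
      · simp [polyMap]
      · simp [polyMap]
    refine cls_bijOn IsConstr.univ (isConstr_one a)
      (Fin.cons 1 X : Fin (a + 1) → MvPolynomial (Fin a) ℂ) ⟨?_, ?_, ?_⟩
    · intro x _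
      rw [hmap]
      simp
    · intro x _ y _ h
      rw [hmap, hmap] at h
      funext j
      have := congrFun h j.succ
      rwa [Fin.cons_succ, Fin.cons_succ] at this
    · intro c hc
      refine ⟨fun j => c j.succ, Set.mem_univ _, ?_⟩
      rw [hmap]
      funext j
      refine Fin.cases ?_ (fun j => ?_) j
      · rw [Fin.cons_zero]
        exact hc.symm
      · rw [Fin.cons_succ]
  unfold clsM
  rw [← h1, ← clsM, clsM_univ, Fintype.card_fin]

/-- The arcs which start at `b` but are not congruent to a multiple of `b`. -/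
theorem ser_start_mem {f : MvPolynomial (Fin n) ℂ}
    (B : Finset (Fin n → ℂ)) (hB0 : ∀ b ∈ B, b ≠ 0)
    (hB : ∀ p, p ≠ 0 → (∀ j, eval p (pderiv j f) = 0) → ∃ b ∈ B, ∃ c : ℂ, p = c • b)
    {b : Fin n → ℂ} (hb : b ∈ B) {s₀ : ℚ} (hs : s₀ ≠ -1) (a : ℕ) :
    ser f (a + 1) ({ξ | (fun i => ξ (i, 0)) = b} \ lineS (a + 1) b) ∈ regularAt s₀ := by
  obtain ⟨E, hE⟩ := exists_bound B hB0 hB (a + 1)
  refine ser_mem_of_bounded ((isConstr_start a b).diff (isConstr_lineS _ (hB0 b hb)))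
    (E := E) (fun x hx => hE x ?_ ?_) hs
  · obtain ⟨i, hi⟩ := Function.ne_iff.1 (hB0 b hb)
    refine ⟨i, ?_⟩
    have h1 : tr (a + 1) x (i, 0) = b i := congrFun hx.1 i
    have h2 : tr (a + 1) x (i, 0) = PowerSeries.coeff 0 (x i) := rfl
    rw [← h2, h1]
    exact hi
  · rintro b' hb' ⟨c, hc⟩
    apply hx.2
    have h1 : ∀ i, b i = c 0 * b' i := by
      intro i
      have h2 : tr (a + 1) x (i, 0) = b i := congrFun hx.1 i
      rw [← h2, hc]
      rfl
    have hc0 : c 0 ≠ 0 := by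
      intro h0
      apply hB0 b hb
      funext i
      rw [h1, h0, zero_mul]
      rfl
    refine ⟨fun k => c k / c 0, ?_⟩
    rw [hc]
    funext q
    simp only [mulB]
    rw [h1]
    field_simp

/-- The jets `≡ b` at a singular point. -/
theorem ser_jet_mem {f : MvPolynomial (Fin n) ℂ} {d : ℕ} (hf : f.IsHomogeneous d)
    (B : Finset (Fin n → ℂ)) (hB0 : ∀ b ∈ B, b ≠ 0)
    (hB : ∀ p, p ≠ 0 → (∀ j, eval p (pderiv j f) = 0) → ∃ b ∈ B, ∃ c : ℂ, p = c • b)
    {b : Fin n → ℂ} (hb : b ∈ B) {s₀ : ℚ} (hs : s₀ ≠ -1) (hreg : seriesAt f {b} ∈ regularAt s₀)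
    (a : ℕ) : ser f (a + 1) {mulB (Pi.single 0 1) b} ∈ regularAt s₀ := by
  have hb0 := hB0 b hb
  obtain ⟨i₀, hi₀⟩ := Function.ne_iff.1 hb0
  simp only [Pi.zero_apply] at hi₀
  have e1 : {ξ : Fin n × Fin (a + 1) → ℂ | (fun i => ξ (i, 0)) = b} =
      {ξ | ∃ c ∈ {c : Fin (a + 1) → ℂ | c 0 = 1}, ξ = mulB c b} ∪
        ({ξ | (fun i => ξ (i, 0)) = b} \ lineS (a + 1) b) := by
    ext ξ
    simp only [Set.mem_union, Set.mem_sdiff, Set.mem_ofPred_eq]
    constructor
    · intro h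
      by_cases hl : ξ ∈ lineS (a + 1) b
      · left
        obtain ⟨c, rfl⟩ := hl
        refine ⟨c, ?_, rfl⟩
        have h1 := congrFun h i₀
        simp only [mulB] at h1
        exact mul_right_cancel₀ hi₀ (by rw [h1, one_mul])
      · exact Or.inr ⟨h, hl⟩
    · rintro (⟨c, hc, rfl⟩ | h)
      · funext i
        simp only [mulB]
        rw [hc, one_mul]
      · exact h.1
  have hd : Disjoint {ξ : Fin n × Fin (a + 1) → ℂ | ∃ c ∈ {c : Fin (a + 1) → ℂ | c 0 = 1},
      ξ = mulB c b} ({ξ | (fun i => ξ (i, 0)) = b} \ lineS (a + 1) b) := by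
    rw [Set.disjoint_left]
    rintro ξ ⟨c, -, hc⟩ ⟨-, h⟩
    exact h ⟨c, hc⟩
  have e2 := ser_point f a b
  rw [e1, ser_union f (isConstr_mulB hb0 (isConstr_one a))
    ((isConstr_start a b).diff (isConstr_lineS _ hb0)) hd,
    ser_line hf hb0 (isConstr_one a) (fun c hc => by rw [hc]; exact one_ne_zero),
    clsM_one] at e2
  have e3 : ser f (a + 1) {mulB (Pi.single 0 1) b} =
      PowerSeries.C (↑((LU ^ a)⁻¹) : Mot) * (seriesAt f {b} -
        ser f (a + 1) ({ξ | (fun i => ξ (i, 0)) = b} \ lineS (a + 1) b)) := by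
    rw [← e2, add_sub_cancel_right, ← mul_assoc, ← map_mul, Units.inv_mul, map_one, one_mul]
  rw [e3]
  exact mul_mem (C_mem_regularAt s₀ _) (sub_mem hreg (ser_start_mem B hB0 hB hb hs a))

/-- The arcs which do not start at the origin. -/
theorem ser_mem {f : MvPolynomial (Fin n) ℂ} {d : ℕ} (hf : f.IsHomogeneous d)
    (B : Finset (Fin n → ℂ)) (hB0 : ∀ b ∈ B, b ≠ 0)
    (hB : ∀ p, p ≠ 0 → (∀ j, eval p (pderiv j f) = 0) → ∃ b ∈ B, ∃ c : ℂ, p = c • b)
    {s₀ : ℚ} (hs : s₀ ≠ -1) (hreg : ∀ b ∈ B, seriesAt f {b} ∈ regularAt s₀)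
    (a : ℕ) {S : Set (Fin n × Fin (a + 1) → ℂ)} (hS : IsConstr S)
    (h : ∀ ξ ∈ S, ∃ i, ξ (i, 0) ≠ 0) : ser f (a + 1) S ∈ regularAt s₀ := by
  classical
  have hcon : ∀ (B₁ : Finset (Fin n → ℂ)), B₁ ⊆ B → ∀ S : Set (Fin n × Fin (a + 1) → ℂ),
      IsConstr S → IsConstr {ξ | ξ ∈ S ∧ ∃ b ∈ B₁, ξ ∈ lineS (a + 1) b} := by
    intro B₁ hB₁ S hS
    exact isConstr_setOf_and hS (isConstr_exists_mem _ _ fun b hb =>
      isConstr_lineS _ (hB0 b (hB₁ hb)))
  have key : ∀ (B₁ : Finset (Fin n → ℂ)), B₁ ⊆ B → ∀ S : Set (Fin n × Fin (a + 1) → ℂ),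
      IsConstr S → (∀ ξ ∈ S, ∃ i, ξ (i, 0) ≠ 0) →
      ser f (a + 1) {ξ | ξ ∈ S ∧ ∃ b ∈ B₁, ξ ∈ lineS (a + 1) b} ∈ regularAt s₀ := by
    intro B₁
    induction B₁ using Finset.induction_on with
    | empty =>
      intro _ S _ _
      have h1 : {ξ : Fin n × Fin (a + 1) → ℂ | ξ ∈ S ∧ ∃ b ∈ (∅ : Finset (Fin n → ℂ)),
          ξ ∈ lineS (a + 1) b} = ∅ := by
        ext ξ
        simp
      rw [h1, ser_empty]
      exact zero_mem _
    | insert b B₁ hbB₁ ih =>
      intro hsub S hS h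
      have hb : b ∈ B := hsub (Finset.mem_insert_self _ _)
      have hB₁ : B₁ ⊆ B := fun x hx => hsub (Finset.mem_insert_of_mem hx)
      have hb0 := hB0 b hb
      set Γ : Set (Fin (a + 1) → ℂ) := {c | c 0 ≠ 0 ∧ mulB c b ∈ S} with hΓ
      have hΓc : IsConstr Γ := by
        refine isConstr_setOf_and ?_ ?_
        · have := isConstr_ne_zero (X 0 : MvPolynomial (Fin (a + 1)) ℂ)
          simpa using this
        · have h1 := hS.preimage (fun q : Fin n × Fin (a + 1) =>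
            (X q.2 * C (b q.1) : MvPolynomial (Fin (a + 1)) ℂ))
          have h2 : ∀ c : Fin (a + 1) → ℂ, polyMap (fun q : Fin n × Fin (a + 1) =>
              (X q.2 * C (b q.1) : MvPolynomial (Fin (a + 1)) ℂ)) c = mulB c b := by
            intro c
            funext q
            simp [polyMap, mulB]
          convert h1 using 1
          ext c
          simp only [Set.mem_ofPred_eq, Set.mem_preimage, h2]
      have e1 : {ξ : Fin n × Fin (a + 1) → ℂ | ξ ∈ S ∧ ∃ b' ∈ insert b B₁,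
          ξ ∈ lineS (a + 1) b'} = {ξ | ∃ c ∈ Γ, ξ = mulB c b} ∪
            {ξ | ξ ∈ S \ lineS (a + 1) b ∧ ∃ b' ∈ B₁, ξ ∈ lineS (a + 1) b'} := by
        ext ξ
        simp only [Set.mem_union, Set.mem_ofPred_eq, Finset.mem_insert, exists_eq_or_imp,
          Set.mem_sdiff]
        constructor
        · rintro ⟨h1, h2⟩
          by_cases hl : ξ ∈ lineS (a + 1) b
          · left
            obtain ⟨c, rfl⟩ := hl
            refine ⟨c, ⟨?_, h1⟩, rfl⟩
            intro h3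
            obtain ⟨i, hi⟩ := h _ h1
            apply hi
            simp only [mulB]
            rw [h3, zero_mul]
          · rcases h2 with h2 | h2
            · exact absurd h2 hl
            · exact Or.inr ⟨⟨h1, hl⟩, h2⟩
        · rintro (⟨c, ⟨h1, h2⟩, rfl⟩ | ⟨⟨h1, h2⟩, h3⟩)
          · exact ⟨h2, Or.inl ⟨c, rfl⟩⟩
          · exact ⟨h1, Or.inr h3⟩
      have hd : Disjoint {ξ : Fin n × Fin (a + 1) → ℂ | ∃ c ∈ Γ, ξ = mulB c b}
            {ξ | ξ ∈ S \ lineS (a + 1) b ∧ ∃ b' ∈ B₁, ξ ∈ lineS (a + 1) b'} := by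
        rw [Set.disjoint_left]
        rintro ξ ⟨c, -, hc⟩ ⟨⟨-, h1⟩, -⟩
        exact h1 ⟨c, hc⟩
      have hS' : IsConstr (S \ lineS (a + 1) b) := hS.diff (isConstr_lineS _ hb0)
      rw [e1, ser_union f (isConstr_mulB hb0 hΓc) (hcon B₁ hB₁ _ hS') hd,
        ser_line hf hb0 hΓc (fun c hc => hc.1)]
      exact add_mem (mul_mem (C_mem_regularAt s₀ _)
        (ser_jet_mem hf B hB0 hB hb hs (hreg b hb) a))
        (ih hB₁ _ hS' fun ξ hξ => h ξ hξ.1)
  have e1 : S = {ξ | ξ ∈ S ∧ ∃ b ∈ B, ξ ∈ lineS (a + 1) b} ∪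
      (S \ {ξ | ξ ∈ S ∧ ∃ b ∈ B, ξ ∈ lineS (a + 1) b}) := by
    rw [Set.union_sdiff_cancel]
    exact fun ξ hξ => hξ.1
  have hc1 := hcon B subset_rfl S hS
  rw [e1, ser_union f hc1 (hS.diff hc1) disjoint_sdiff_self_right]
  refine add_mem (key B subset_rfl S hS h) ?_
  obtain ⟨E, hE⟩ := exists_bound B hB0 hB (a + 1)
  refine ser_mem_of_bounded (hS.diff hc1) (E := E) (fun x hx => hE x ?_ ?_) hs
  · exact h _ hx.1
  · intro b hb hl
    exact hx.2 ⟨hx.1, b, hb, hl⟩

/-- A homogeneous polynomial with finitely many singular lines which is also weighted homogeneous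
for other weights: the candidate pole of the origin. -/
theorem zmot_mem_of_weights {f : MvPolynomial (Fin n) ℂ} {d : ℕ} (hf : f.IsHomogeneous d)
    {w : Fin n → ℕ} {D : ℕ} (hD : 0 < D) (hfw : f.IsWeightedHomogeneous w D)
    (B : Finset (Fin n → ℂ)) (hB0 : ∀ b ∈ B, b ≠ 0)
    (hB : ∀ p, p ≠ 0 → (∀ j, eval p (pderiv j f) = 0) → ∃ b ∈ B, ∃ c : ℂ, p = c • b)
    {s₀ : ℚ} (hs : s₀ ≠ -1) (hsw : ((∑ i, w i : ℕ) : ℚ) / D ≠ -s₀)
    (hreg : ∀ b ∈ B, seriesAt f {b} ∈ regularAt s₀) : Zmot f ∈ regularAt s₀ := by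
  classical
  set a : ℕ := ∑ i, w i with ha
  have hwa : ∀ i, w i ≤ a := fun i =>
    Finset.single_le_sum (f := w) (fun _ _ => Nat.zero_le _) (Finset.mem_univ i)
  set G : ℕ → Set (Fin n × Fin (a + 1) → ℂ) := fun k =>
    {ξ | ∃ q ∈ (Finset.univ : Finset (Fin n × Fin (a + 1))),
      (q.2 : ℕ) + k < w q.1 ∧ ξ q ≠ 0} with hG
  have hne : ∀ q : Fin n × Fin (a + 1), IsConstr {ξ : Fin n × Fin (a + 1) → ℂ | ξ q ≠ 0} := by
    intro q
    have := isConstr_ne_zero (X q : MvPolynomial (Fin n × Fin (a + 1)) ℂ)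
    simpa using this
  have hGc : ∀ k, IsConstr (G k) := fun k =>
    isConstr_exists_mem _ _ fun q _ => isConstr_setOf_and (isConstr_const _) (hne q)
  have hstart : IsConstr {ξ : Fin n × Fin (a + 1) → ℂ | ∃ i ∈ (Finset.univ : Finset (Fin n)),
      ξ (i, 0) ≠ 0} := isConstr_exists_mem _ _ fun i _ => hne (i, 0)
  have key : ∀ j k : ℕ, a + 1 ≤ k + j → ser f (a + 1) (G k) ∈ regularAt s₀ := by
    intro j
    induction j with
    | zero =>
      intro k hk
      have h1 : G k = ∅ := by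
        ext ξ
        simp only [hG, Set.mem_ofPred_eq, Set.mem_empty_iff_false, iff_false]
        rintro ⟨q, -, h1, -⟩
        have := hwa q.1
        omega
      rw [h1, ser_empty]
      exact zero_mem _
    | succ j ih =>
      intro k hk
      have e1 : G k = (G k ∩ {ξ | ∃ i ∈ (Finset.univ : Finset (Fin n)), ξ (i, 0) ≠ 0}) ∪
          {ξ | (∀ q : Fin n × Fin (a + 1), (q.2 : ℕ) < (1 : Fin n → ℕ) q.1 → ξ q = 0) ∧
            ξ ∈ G k} := by
        ext ξ
        simp only [Set.mem_union, Set.mem_inter_iff, Set.mem_ofPred_eq, Finset.mem_univ, true_and,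
          Pi.one_apply]
        constructor
        · intro h1
          by_cases h2 : ∃ i, ξ (i, 0) ≠ 0
          · exact Or.inl ⟨h1, h2⟩
          · push Not at h2
            refine Or.inr ⟨fun q hq => ?_, h1⟩
            have h3 : q = (q.1, 0) := by
              refine Prod.ext rfl (Fin.ext ?_)
              simp only [Fin.val_zero]
              omega
            rw [h3]
            exact h2 q.1
        · rintro (h1 | h1)
          · exact h1.1
          · exact h1.2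
      have hd : Disjoint (G k ∩ {ξ | ∃ i ∈ (Finset.univ : Finset (Fin n)), ξ (i, 0) ≠ 0})
          {ξ | (∀ q : Fin n × Fin (a + 1), (q.2 : ℕ) < (1 : Fin n → ℕ) q.1 → ξ q = 0) ∧
            ξ ∈ G k} := by
        rw [Set.disjoint_left]
        rintro ξ ⟨-, i, -, h1⟩ ⟨h2, -⟩
        exact h1 (h2 (i, 0) (by simp))
      have hc2 : IsConstr {ξ : Fin n × Fin (a + 1) → ℂ |
          (∀ q : Fin n × Fin (a + 1), (q.2 : ℕ) < (1 : Fin n → ℕ) q.1 → ξ q = 0) ∧ ξ ∈ G k} := by
        have h1 := isConstr_setOf_and (isConstr_forall_mem (Finset.univ :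
          Finset (Fin n × Fin (a + 1))) (fun q ξ => (q.2 : ℕ) < (1 : Fin n → ℕ) q.1 → ξ q = 0)
          (fun q _ => isConstr_setOf_imp (isConstr_const _) (by
            have := isConstr_eq_zero (X q : MvPolynomial (Fin n × Fin (a + 1)) ℂ)
            simpa using this))) (hGc k)
        convert h1 using 1
        ext ξ
        simp only [hG, Set.mem_ofPred_eq, Finset.mem_univ, true_imp_iff, true_and]
      have e2 : {ξ : Fin n × Fin (a + 1) → ℂ | upw (1 : Fin n → ℕ) ξ ∈ G k} = G (k + 1) := by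
        ext ξ
        simp only [hG, Set.mem_ofPred_eq, Finset.mem_univ, true_and, upw, Pi.one_apply]
        constructor
        · rintro ⟨q, h1, h2⟩
          have h3 : 1 ≤ (q.2 : ℕ) := by
            by_contra h
            rw [if_neg h] at h2
            exact h2 rfl
          rw [if_pos h3] at h2
          exact ⟨_, by simp only; omega, h2⟩
        · rintro ⟨q, h1, h2⟩
          have h4 := hwa q.1
          refine ⟨(q.1, ⟨(q.2 : ℕ) + 1, by omega⟩), by simp only; omega, ?_⟩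
          simp only
          rw [if_pos (by omega)]
          exact h2
      rw [e1, ser_union f ((hGc k).inter hstart) hc2 hd]
      refine add_mem (ser_mem hf B hB0 hB hs hreg a ((hGc k).inter hstart) ?_) ?_
      · rintro ξ ⟨-, i, -, h1⟩
        exact ⟨i, h1⟩
      · rw [ser_weights (w := (1 : Fin n → ℕ)) hf (fun i => by simp) (hGc k), e2]
        exact mul_mem (C_mem_regularAt s₀ _) (mul_mem (pow_mem (X_mem_regularAt s₀) d)
          (ih (k + 1) (by omega)))
  have h0 := key (a + 1) 0 (by omega)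
  have hc3 : IsConstr {ξ : Fin n × Fin (a + 1) → ℂ |
      (∀ q : Fin n × Fin (a + 1), (q.2 : ℕ) < w q.1 → ξ q = 0) ∧
        ξ ∈ (Set.univ : Set (Fin n × Fin (a + 1) → ℂ))} := by
    have h1 := isConstr_setOf_and (isConstr_forall_mem (Finset.univ :
      Finset (Fin n × Fin (a + 1))) (fun q ξ => (q.2 : ℕ) < w q.1 → ξ q = 0)
      (fun q _ => isConstr_setOf_imp (isConstr_const _) (by
        have := isConstr_eq_zero (X q : MvPolynomial (Fin n × Fin (a + 1)) ℂ)
        simpa using this))) (IsConstr.univ)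
    simpa using h1
  have e1 : (Set.univ : Set (Fin n × Fin (a + 1) → ℂ)) = {ξ |
      (∀ q : Fin n × Fin (a + 1), (q.2 : ℕ) < w q.1 → ξ q = 0) ∧
        ξ ∈ (Set.univ : Set (Fin n × Fin (a + 1) → ℂ))} ∪ G 0 := by
    ext ξ
    simp only [hG, Set.mem_univ, Set.mem_union, Set.mem_ofPred_eq, and_true, Finset.mem_univ,
      true_and, add_zero, true_iff]
    by_cases h1 : ∃ q : Fin n × Fin (a + 1), (q.2 : ℕ) < w q.1 ∧ ξ q ≠ 0
    · exact Or.inr h1
    · push Not at h1
      exact Or.inl h1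
  have hd : Disjoint {ξ : Fin n × Fin (a + 1) → ℂ |
      (∀ q : Fin n × Fin (a + 1), (q.2 : ℕ) < w q.1 → ξ q = 0) ∧
        ξ ∈ (Set.univ : Set (Fin n × Fin (a + 1) → ℂ))} (G 0) := by
    rw [Set.disjoint_left]
    rintro ξ ⟨h1, -⟩ ⟨q, -, h2, h3⟩
    exact h3 (h1 q (by omega))
  have e2 : {ξ : Fin n × Fin (a + 1) → ℂ | upw w ξ ∈ (Set.univ :
      Set (Fin n × Fin (a + 1) → ℂ))} = Set.univ := by
    ext ξ
    simp
  have e3 : Zmot f = PowerSeries.C (↑((LU ^ (∑ i, w i))⁻¹) : Mot) *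
      (PowerSeries.X ^ D * Zmot f) + ser f (a + 1) (G 0) := by
    conv_lhs => rw [← ser_univ f (a + 1), e1, ser_union f hc3 (hGc 0) hd,
      ser_weights hfw (fun i => (hwa i).trans (Nat.le_succ a)) IsConstr.univ, e2, ser_univ]
  obtain ⟨g, hg1, hg2⟩ := exists_inv hD (∑ i, w i) hsw
  have e4 : Zmot f = ser f (a + 1) (G 0) * g := by
    have h3 : Zmot f * (1 - PowerSeries.C (↑((LU ^ (∑ i, w i))⁻¹) : Mot) * PowerSeries.X ^ D) =
        ser f (a + 1) (G 0) := by
      rw [mul_sub, mul_one]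
      nth_rewrite 1 [e3]
      ring
    rw [← h3, mul_assoc, mul_comm _ g, hg2, mul_one]
  rw [e4]
  exact mul_mem h0 hg1

end W

end MPb07157
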